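import Mathlib

/-! The Fomin-Kirillov algebra on a vertex set `V`, over `ℚ`. -/

namespace Pool.Agent.H71.FK

open FreeAlgebra

variable (V : Type)

/-- The defining relations. -/
inductive Rel : FreeAlgebra ℚ (V × V) → FreeAlgebra ℚ (V × V) → Prop
  | anti (a b : V) : Rel (ι ℚ (a, b)) (-ι ℚ (b, a))
  | sq (a b : V) (h : a ≠ b) : Rel (ι ℚ (a, b) * ι ℚ (a, b)) 0
  | comm (a b c d : V) (hab : a ≠ b) (hac : a ≠ c) (had : a ≠ d) (hbc : b ≠ c) (hbd : b ≠ d)
      (hcd : c ≠ d) : Rel (ι ℚ (a, b) * ι ℚ (c, d)) (ι ℚ (c, d) * ι ℚ (a, b))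
  | tri (a b c : V) (hab : a ≠ b) (hbc : b ≠ c) (hca : c ≠ a) :
      Rel (ι ℚ (a, b) * ι ℚ (b, c) + ι ℚ (b, c) * ι ℚ (c, a) + ι ℚ (c, a) * ι ℚ (a, b)) 0

/-- The Fomin-Kirillov algebra: the free algebra on the pairs `(a, b)` modulo the relations. -/
def E : Type := RingQuot (Rel V)

/-- the ring structure -/
noncomputable def ringE : Ring (E V) := RingQuot.instRing (Rel V)

noncomputable instance : Ring (E V) := ringE V

/-- the algebra structure -/
noncomputable def algE : Algebra ℚ (E V) := RingQuot.instAlgebra (Rel V)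

noncomputable instance : Algebra ℚ (E V) := algE V

/-- the quotient map -/
noncomputable def quo : FreeAlgebra ℚ (V × V) →ₐ[ℚ] E V := RingQuot.mkAlgHom ℚ (Rel V)

theorem quo_rel {p q : FreeAlgebra ℚ (V × V)} (h : Rel V p q) : quo V p = quo V q :=
  RingQuot.mkAlgHom_rel ℚ h

theorem quo_surjective : Function.Surjective (quo V) := RingQuot.mkAlgHom_surjective ℚ (Rel V)

variable {V}

/-- The generator `x_{ab}`. -/
noncomputable def x (a b : V) : E V := quo V (ι ℚ (a, b))

theorem x_anti (a b : V) : x a b = - x b a := by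
  have := quo_rel V (Rel.anti a b)
  simpa [x, map_neg] using this

theorem x_self (a : V) : x a a = 0 := by
  have h := x_anti a a
  have h2 : (2 : ℚ) • x a a = 0 := by
    rw [two_smul]; nth_rewrite 1 [h]; simp
  rcases smul_eq_zero.mp h2 with h3 | h3
  · norm_num at h3
  · exact h3

theorem x_sq (a b : V) : x a b * x a b = 0 := by
  by_cases h : a = b
  · subst h; rw [x_self]; simp
  · have := quo_rel V (Rel.sq a b h)
    simpa [x, map_mul] using this

theorem x_comm {a b c d : V} (hab : a ≠ b) (hac : a ≠ c) (had : a ≠ d) (hbc : b ≠ c)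
    (hbd : b ≠ d) (hcd : c ≠ d) : x a b * x c d = x c d * x a b := by
  have := quo_rel V (Rel.comm a b c d hab hac had hbc hbd hcd)
  simpa [x, map_mul] using this

theorem x_tri {a b c : V} (hab : a ≠ b) (hbc : b ≠ c) (hca : c ≠ a) :
    x a b * x b c + x b c * x c a + x c a * x a b = 0 := by
  have := quo_rel V (Rel.tri a b c hab hbc hca)
  simpa [x, map_mul, map_add] using this

section lift

variable {B : Type} [Ring B] [Algebra ℚ B]

/-- A map `f` satisfying the relations. -/
structure Good (f : V → V → B) : Prop where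
  anti : ∀ a b, f a b = - f b a
  sq : ∀ a b, a ≠ b → f a b * f a b = 0
  comm : ∀ a b c d, a ≠ b → a ≠ c → a ≠ d → b ≠ c → b ≠ d → c ≠ d → f a b * f c d = f c d * f a b
  tri : ∀ a b c, a ≠ b → b ≠ c → c ≠ a → f a b * f b c + f b c * f c a + f c a * f a b = 0

theorem lift_rel (f : V → V → B) (hf : Good f) {p q : FreeAlgebra ℚ (V × V)} (h : Rel V p q) :
    FreeAlgebra.lift ℚ (fun p : V × V => f p.1 p.2) p =
      FreeAlgebra.lift ℚ (fun p : V × V => f p.1 p.2) q := by
  induction h with
  | anti a b => simpa using hf.anti a b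
  | sq a b h => simpa using hf.sq a b h
  | comm a b c d h1 h2 h3 h4 h5 h6 => simpa using hf.comm a b c d h1 h2 h3 h4 h5 h6
  | tri a b c h1 h2 h3 => simpa using hf.tri a b c h1 h2 h3

/-- Universal property. -/
noncomputable def lift (f : V → V → B) (hf : Good f) : E V →ₐ[ℚ] B :=
  RingQuot.liftAlgHom ℚ ⟨FreeAlgebra.lift ℚ (fun p : V × V => f p.1 p.2),
    fun _ _ h => lift_rel f hf h⟩

@[simp] theorem lift_x (f : V → V → B) (hf : Good f) (a b : V) : lift f hf (x a b) = f a b := by
  have := RingQuot.liftAlgHom_mkAlgHom_apply ℚ (FreeAlgebra.lift ℚ (fun p : V × V => f p.1 p.2))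
    (s := Rel V) (fun _ _ h => lift_rel f hf h) (ι ℚ (a, b))
  rw [FreeAlgebra.lift_ι_apply] at this
  exact this

theorem hom_ext {g h : E V →ₐ[ℚ] B} (H : ∀ a b, g (x a b) = h (x a b)) : g = h := by
  apply RingQuot.ringQuot_ext' ℚ (s := Rel V) (A := FreeAlgebra ℚ (V × V))
  apply FreeAlgebra.hom_ext
  funext p
  exact H p.1 p.2

end lift

attribute [irreducible] ringE algE E

/-- Induction principle. -/
theorem induct {motive : E V → Prop} (h1 : motive 1) (hx : ∀ a b, motive (x a b))
    (hmul : ∀ p q, motive p → motive q → motive (p * q))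
    (hadd : ∀ p q, motive p → motive q → motive (p + q))
    (hsmul : ∀ (r : ℚ) p, motive p → motive (r • p)) (p : E V) : motive p := by
  obtain ⟨q, rfl⟩ := quo_surjective V p
  induction q using FreeAlgebra.induction with
  | grade0 r =>
    rw [Algebra.algebraMap_eq_smul_one, map_smul, map_one]
    exact hsmul _ _ h1
  | grade1 p => exact hx p.1 p.2
  | mul p q hp hq => rw [map_mul]; exact hmul _ _ hp hq
  | add p q hp hq => rw [map_add]; exact hadd _ _ hp hq

/-- The monomial of a word. -/
noncomputable def mon (l : List (V × V)) : E V := (l.map fun p => x p.1 p.2).prod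

@[simp] theorem mon_nil : mon ([] : List (V × V)) = 1 := rfl
@[simp] theorem mon_cons (p : V × V) (l : List (V × V)) : mon (p :: l) = x p.1 p.2 * mon l := by
  simp [mon]
theorem mon_append (l l' : List (V × V)) : mon (l ++ l') = mon l * mon l' := by
  simp [mon]

theorem span_mon : Submodule.span ℚ (Set.range (mon (V := V))) = ⊤ := by
  rw [eq_top_iff]
  intro p _
  induction p using induct with
  | h1 => exact Submodule.subset_span ⟨[], rfl⟩
  | hx a b => exact Submodule.subset_span ⟨[(a, b)], by simp⟩
  | hmul p q hp hq =>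
    have hp := hp trivial
    have hq := hq trivial
    clear * - hp hq
    induction hp using Submodule.span_induction with
    | mem p hp =>
      obtain ⟨l, rfl⟩ := hp
      induction hq using Submodule.span_induction with
      | mem q hq =>
        obtain ⟨l', rfl⟩ := hq
        exact Submodule.subset_span ⟨l ++ l', mon_append _ _⟩
      | zero => simp
      | add q q' _ _ h h' => rw [mul_add]; exact Submodule.add_mem _ h h'
      | smul r q _ h => rw [mul_smul_comm]; exact Submodule.smul_mem _ _ h
    | zero => simp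
    | add p p' _ _ h h' => rw [add_mul]; exact Submodule.add_mem _ h h'
    | smul r p _ h => rw [smul_mul_assoc]; exact Submodule.smul_mem _ _ h
  | hadd p q hp hq => exact Submodule.add_mem _ (hp trivial) (hq trivial)
  | hsmul r p hp => exact Submodule.smul_mem _ _ (hp trivial)

theorem mon_induct {motive : E V → Prop} (hm : ∀ l, motive (mon l))
    (hadd : ∀ p q, motive p → motive q → motive (p + q))
    (hsmul : ∀ (r : ℚ) p, motive p → motive (r • p)) (p : E V) : motive p := by
  have hp : p ∈ Submodule.span ℚ (Set.range (mon (V := V))) := by rw [span_mon]; trivial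
  induction hp using Submodule.span_induction with
  | mem p hp => obtain ⟨l, rfl⟩ := hp; exact hm l
  | zero => simpa using hsmul 0 (mon []) (hm [])
  | add p q _ _ h h' => exact hadd _ _ h h'
  | smul r p _ h => exact hsmul _ _ h

/-! ### the action of permutations -/


theorem good_act (g : Equiv.Perm V) : Good (fun a b => x (g a) (g b)) where
  anti a b := x_anti _ _
  sq a b _ := x_sq _ _
  comm a b c d h1 h2 h3 h4 h5 h6 := x_comm (by simpa using h1) (by simpa using h2)
    (by simpa using h3) (by simpa using h4) (by simpa using h5) (by simpa using h6)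
  tri a b c h1 h2 h3 := x_tri (by simpa using h1) (by simpa using h2) (by simpa using h3)

/-- The action of a permutation. -/
noncomputable def act (g : Equiv.Perm V) : E V →ₐ[ℚ] E V := lift _ (good_act g)

@[simp] theorem act_x (g : Equiv.Perm V) (a b : V) : act g (x a b) = x (g a) (g b) := by
  simp [act]

theorem act_mul (g h : Equiv.Perm V) : act (g * h) = (act g).comp (act h) :=
  hom_ext fun a b => by simp

theorem act_act (g h : Equiv.Perm V) (p : E V) : act g (act h p) = act (g * h) p := by
  rw [act_mul]; rfl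

@[simp] theorem act_one : act (1 : Equiv.Perm V) = AlgHom.id ℚ (E V) :=
  hom_ext fun a b => by simp

theorem act_injective (g : Equiv.Perm V) : Function.Injective (act g) := by
  intro p q h
  have := congrArg (act g⁻¹) h
  simpa [act_act] using this

theorem act_mon (g : Equiv.Perm V) (l : List (V × V)) :
    act g (mon l) = mon (l.map fun p => (g p.1, g p.2)) := by
  induction l with
  | nil => simp
  | cons p l ih => simp [ih]

/-! ### augmentation -/

/-- The augmentation. -/
noncomputable def eps : E V →ₐ[ℚ] ℚ := lift (fun _ _ => (0 : ℚ)) ⟨by simp, by simp, by simp, by simp⟩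

@[simp] theorem eps_x (a b : V) : eps (x a b) = 0 := by simp [eps]

theorem eps_act (g : Equiv.Perm V) (p : E V) : eps (act g p) = eps p := by
  have : eps.comp (act g) = eps := hom_ext fun a b => by simp
  exact DFunLike.congr_fun this p

/-! ### the twisted derivations -/

variable [DecidableEq V]

/-- `Δ_{ab}(x_{cd})`. -/
def del (a b c d : V) : ℚ := (if c = a ∧ d = b then 1 else 0) - (if c = b ∧ d = a then 1 else 0)

/-- the upper triangular representation which encodes `Δ_{ab}` -/
noncomputable def rhoX (a b c d : V) : Matrix (Fin 2) (Fin 2) (E V) :=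
  Matrix.of fun i j => if i = 0 then
    (if j = 0 then x (Equiv.swap a b c) (Equiv.swap a b d) else del a b c d • (1 : E V))
    else (if j = 0 then 0 else x c d)

theorem del_anti (a b c d : V) : del a b c d = - del a b d c := by
  unfold del
  have e1 : (c = a ∧ d = b) ↔ (d = b ∧ c = a) := and_comm
  have e2 : (c = b ∧ d = a) ↔ (d = a ∧ c = b) := and_comm
  simp only [e1, e2]; ring

theorem del_cases (a b c d : V) :
    del a b c d = 0 ∨ (c = a ∧ d = b) ∨ (c = b ∧ d = a) := by
  unfold del
  by_cases h1 : c = a ∧ d = b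
  · exact Or.inr (Or.inl h1)
  · by_cases h2 : c = b ∧ d = a
    · exact Or.inr (Or.inr h2)
    · left; rw [if_neg h1, if_neg h2]; simp

theorem del_add (a b c d : V) :
    del a b c d • x (Equiv.swap a b c) (Equiv.swap a b d) = - (del a b c d • x c d) := by
  rcases del_cases a b c d with h | ⟨rfl, rfl⟩ | ⟨rfl, rfl⟩
  · simp [h]
  · rw [Equiv.swap_apply_left, Equiv.swap_apply_right, x_anti d c]; simp
  · rw [Equiv.swap_apply_left, Equiv.swap_apply_right, x_anti d c]; simp

theorem del_fix (a b c d e f : V) (hec : e ≠ c) (hed : e ≠ d) (hfc : f ≠ c)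
    (hfd : f ≠ d) :
    del a b c d • x (Equiv.swap a b e) (Equiv.swap a b f) = del a b c d • x e f := by
  rcases del_cases a b c d with h | ⟨rfl, rfl⟩ | ⟨rfl, rfl⟩
  · simp [h]
  · rw [Equiv.swap_apply_of_ne_of_ne hec hed, Equiv.swap_apply_of_ne_of_ne hfc hfd]
  · rw [Equiv.swap_apply_of_ne_of_ne hed hec, Equiv.swap_apply_of_ne_of_ne hfd hfc]

theorem del_tri (a b c d e : V) (hec : e ≠ c) (hed : e ≠ d) :
    del a b c d • x (Equiv.swap a b e) (Equiv.swap a b c) = - (del a b c d • x d e) := by
  rcases del_cases a b c d with h | ⟨rfl, rfl⟩ | ⟨rfl, rfl⟩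
  · simp [h]
  · rw [Equiv.swap_apply_of_ne_of_ne hec hed, Equiv.swap_apply_left, x_anti e d]; simp
  · rw [Equiv.swap_apply_of_ne_of_ne hed hec, Equiv.swap_apply_right, x_anti e d]; simp

theorem good_rho (a b : V) : Good (rhoX a b) where
  anti c d := by
    ext i j; fin_cases i <;> fin_cases j <;>
      simp [rhoX, x_anti (Equiv.swap a b d) (Equiv.swap a b c), x_anti d c, del_anti a b d c,
        neg_smul]
  sq c d h := by
    ext i j; fin_cases i <;> fin_cases j <;>
      simp [rhoX, Matrix.mul_apply, Fin.sum_univ_two, x_sq, del_add a b c d]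
  comm c d e f h1 h2 h3 h4 h5 h6 := by
    have e1 := del_fix a b c d e f h2.symm h4.symm h3.symm h5.symm
    have e2 := del_fix a b e f c d h2 h3 h4 h5
    ext i j; fin_cases i <;> fin_cases j
    · simp [rhoX, Matrix.mul_apply, Fin.sum_univ_two]
      exact x_comm (by simpa using h1) (by simpa using h2)
        (by simpa using h3) (by simpa using h4) (by simpa using h5) (by simpa using h6)
    · simp [rhoX, Matrix.mul_apply, Fin.sum_univ_two, e1, e2, add_comm]
    · simp [rhoX, Matrix.mul_apply, Fin.sum_univ_two]
    · simp [rhoX, Matrix.mul_apply, Fin.sum_univ_two]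
      exact x_comm h1 h2 h3 h4 h5 h6
  tri c d e h1 h2 h3 := by
    have e1 := del_tri a b c d e h3 h2.symm
    have e2 := del_tri a b d e c h1 h3.symm
    have e3 := del_tri a b e c d h2 h1.symm
    ext i j; fin_cases i <;> fin_cases j
    · simp [rhoX, Matrix.mul_apply, Fin.sum_univ_two]
      exact x_tri (by simpa using h1) (by simpa using h2) (by simpa using h3)
    · simp [rhoX, Matrix.mul_apply, Fin.sum_univ_two, e1, e2, e3]
      abel
    · simp [rhoX, Matrix.mul_apply, Fin.sum_univ_two]
    · simp [rhoX, Matrix.mul_apply, Fin.sum_univ_two]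
      exact x_tri h1 h2 h3

/-- the upper triangular representation -/
noncomputable def rho (a b : V) : E V →ₐ[ℚ] Matrix (Fin 2) (Fin 2) (E V) := lift _ (good_rho a b)

theorem rho_shape (a b : V) (p : E V) :
    rho a b p 0 0 = act (Equiv.swap a b) p ∧ rho a b p 1 0 = 0 ∧ rho a b p 1 1 = p := by
  induction p using induct with
  | h1 => simp
  | hx c d => simp [rho, rhoX]
  | hmul p q hp hq =>
    obtain ⟨h1, h2, h3⟩ := hp
    obtain ⟨k1, k2, k3⟩ := hq
    simp only [map_mul, Matrix.mul_apply, Fin.sum_univ_two]
    rw [h1, h2, h3, k1, k2, k3]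
    simp
  | hadd p q hp hq =>
    obtain ⟨h1, h2, h3⟩ := hp
    obtain ⟨k1, k2, k3⟩ := hq
    simp only [map_add, Matrix.add_apply]
    rw [h1, h2, h3, k1, k2, k3]
    simp
  | hsmul r p hp =>
    obtain ⟨h1, h2, h3⟩ := hp
    simp only [map_smul, Matrix.smul_apply]
    rw [h1, h2, h3]
    simp

/-- The twisted derivation `Δ_{ab}`. -/
noncomputable def D (a b : V) : E V →ₗ[ℚ] E V where
  toFun p := rho a b p 0 1
  map_add' p q := by simp
  map_smul' r p := by simp

theorem D_def (a b : V) (p : E V) : D a b p = rho a b p 0 1 := rfl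

@[simp] theorem D_x (a b c d : V) : D a b (x c d) = del a b c d • (1 : E V) := by
  simp [D_def, rho, rhoX]

@[simp] theorem D_one (a b : V) : D a b (1 : E V) = 0 := by
  simp [D_def]

theorem D_mul (a b : V) (p q : E V) :
    D a b (p * q) = D a b p * q + act (Equiv.swap a b) p * D a b q := by
  obtain ⟨h1, h2, h3⟩ := rho_shape a b p
  obtain ⟨k1, k2, k3⟩ := rho_shape a b q
  simp only [D_def, map_mul, Matrix.mul_apply, Fin.sum_univ_two]
  rw [h1, k3, add_comm]

theorem del_swap (a b c d : V) (g : Equiv.Perm V) : del (g a) (g b) (g c) (g d) = del a b c d := by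
  simp [del]

/-- equivariance -/
theorem act_D (g : Equiv.Perm V) (a b : V) (p : E V) :
    act g (D a b p) = D (g a) (g b) (act g p) := by
  induction p using induct with
  | h1 => simp
  | hx c d => simp [del_swap]
  | hmul p q hp hq =>
    rw [D_mul, map_add, map_mul, map_mul, map_mul, D_mul, hp, hq, act_act, act_act]
    congr 3
    rw [Equiv.mul_swap_eq_swap_mul]
  | hadd p q hp hq => simp [hp, hq]
  | hsmul r p hp => simp [hp]

theorem del_swap_left (a b c d : V) : del a b c d = - del b a c d := by
  unfold del; ring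

theorem D_anti (a b : V) (p : E V) : D a b p = - D b a p := by
  induction p using induct with
  | h1 => simp
  | hx c d => rw [D_x, D_x, del_swap_left]; simp
  | hmul p q hp hq =>
    rw [D_mul, D_mul, hp, hq, Equiv.swap_comm a b, neg_mul, mul_neg, neg_add]
  | hadd p q hp hq => rw [map_add, map_add, hp, hq]; abel
  | hsmul r p hp => rw [map_smul, map_smul, hp]; simp

theorem swap_comm_swap {a b c d : V} (h2 : a ≠ c) (h3 : a ≠ d) (h4 : b ≠ c) (h5 : b ≠ d) :
    Equiv.swap a b * Equiv.swap c d = Equiv.swap c d * Equiv.swap a b := by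
  rw [Equiv.mul_swap_eq_swap_mul, Equiv.swap_apply_of_ne_of_ne h2.symm h4.symm,
    Equiv.swap_apply_of_ne_of_ne h3.symm h5.symm]

theorem swap_tri {a b c : V} (h1 : a ≠ b) (h2 : b ≠ c) (h3 : c ≠ a) :
    Equiv.swap a b * Equiv.swap b c = Equiv.swap b c * Equiv.swap c a := by
  rw [Equiv.mul_swap_eq_swap_mul (Equiv.swap b c), Equiv.swap_apply_right,
    Equiv.swap_apply_of_ne_of_ne h1 h3.symm, Equiv.swap_comm b a]

theorem good_D : Good (fun a b : V => (D a b : Module.End ℚ (E V))) where
  anti a b := LinearMap.ext fun p => D_anti a b p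
  sq a b h := LinearMap.ext fun p => by
    change D a b (D a b p) = 0
    induction p using induct with
    | h1 => simp
    | hx c d => simp
    | hmul p q hp hq =>
      have e := act_D (Equiv.swap a b) a b p
      rw [Equiv.swap_apply_left, Equiv.swap_apply_right, D_anti b a] at e
      rw [D_mul, map_add, D_mul, D_mul, hp, hq, e]; simp
    | hadd p q hp hq => simp [hp, hq]
    | hsmul r p hp => simp [hp]
  comm a b c d h1 h2 h3 h4 h5 h6 := LinearMap.ext fun p => by
    change D a b (D c d p) = D c d (D a b p)
    induction p using induct with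
    | h1 => simp
    | hx e f => simp
    | hmul p q hp hq =>
      have e := act_D (Equiv.swap a b) c d p
      rw [Equiv.swap_apply_of_ne_of_ne h2.symm h4.symm, Equiv.swap_apply_of_ne_of_ne h3.symm h5.symm] at e
      have e' := act_D (Equiv.swap c d) a b p
      rw [Equiv.swap_apply_of_ne_of_ne h2 h3, Equiv.swap_apply_of_ne_of_ne h4 h5] at e'
      have e'' : act (Equiv.swap a b) (act (Equiv.swap c d) p)
          = act (Equiv.swap c d) (act (Equiv.swap a b) p) := by
        rw [act_act, act_act]
        congr 2
        exact swap_comm_swap h2 h3 h4 h5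
      rw [D_mul, D_mul, map_add, map_add, D_mul, D_mul, D_mul, D_mul, hp, hq, e, e', e'']
      abel
    | hadd p q hp hq => simp [hp, hq]
    | hsmul r p hp => simp [hp]
  tri a b c h1 h2 h3 := LinearMap.ext fun p => by
    change D a b (D b c p) + D b c (D c a p) + D c a (D a b p) = 0
    induction p using induct with
    | h1 => simp
    | hx e f => simp
    | hmul p q hp hq =>
      have e1 := act_D (Equiv.swap a b) b c p
      rw [Equiv.swap_apply_right, Equiv.swap_apply_of_ne_of_ne h3 h2.symm, D_anti a c] at e1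
      have e2 := act_D (Equiv.swap b c) c a p
      rw [Equiv.swap_apply_right, Equiv.swap_apply_of_ne_of_ne h1 h3.symm, D_anti b a] at e2
      have e3 := act_D (Equiv.swap c a) a b p
      rw [Equiv.swap_apply_right, Equiv.swap_apply_of_ne_of_ne h2 h1.symm, D_anti c b] at e3
      have s1 : Equiv.swap b c * Equiv.swap c a = Equiv.swap a b * Equiv.swap b c :=
        (swap_tri h1 h2 h3).symm
      have s2 : Equiv.swap c a * Equiv.swap a b = Equiv.swap a b * Equiv.swap b c := by
        rw [← s1]; exact (swap_tri h2 h3 h1).symm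
      rw [D_mul b c, D_mul c a, D_mul a b, map_add, map_add, map_add, D_mul, D_mul, D_mul, D_mul,
        D_mul, D_mul, e1, e2, e3, act_act, act_act, act_act, s1, s2]
      have : (D a b) ((D b c) p) * q + -(D c a) ((act (Equiv.swap a b)) p) * (D a b) q +
          ((D a b) ((act (Equiv.swap b c)) p) * (D b c) q +
            (act (Equiv.swap a b * Equiv.swap b c)) p * (D a b) ((D b c) q)) +
        ((D b c) ((D c a) p) * q + -(D a b) ((act (Equiv.swap b c)) p) * (D b c) q +
          ((D b c) ((act (Equiv.swap c a)) p) * (D c a) q +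
            (act (Equiv.swap a b * Equiv.swap b c)) p * (D b c) ((D c a) q))) +
        ((D c a) ((D a b) p) * q + -(D b c) ((act (Equiv.swap c a)) p) * (D c a) q +
          ((D c a) ((act (Equiv.swap a b)) p) * (D a b) q +
            (act (Equiv.swap a b * Equiv.swap b c)) p * (D c a) ((D a b) q)))
        = ((D a b) ((D b c) p) + (D b c) ((D c a) p) + (D c a) ((D a b) p)) * q +
          (act (Equiv.swap a b * Equiv.swap b c)) p *
            ((D a b) ((D b c) q) + (D b c) ((D c a) q) + (D c a) ((D a b) q)) := by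
        simp only [neg_mul, add_mul, mul_add]; abel
      rw [this, hp, hq]; simp
    | hadd p q hp hq =>
      simp only [map_add]
      have := congrArg₂ (· + ·) hp hq
      simp only [add_zero] at this
      rw [← this]; abel
    | hsmul r p hp => simp only [map_smul, ← smul_add, hp, smul_zero]

end Pool.Agent.H71.FK
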