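import Pool.Agent.H71.FK.Deriv

/-! Counting classes: cycles of a permutation and components of a word. -/

namespace Pool.Agent.H71.FK

set_option linter.unusedSectionVars false

open Equiv.Perm

variable {V : Type} [DecidableEq V] [Fintype V]

/-- the orbit relation of a permutation -/
def orb (w : Equiv.Perm V) : Setoid V := SameCycle.setoid w

theorem orb_rel {w : Equiv.Perm V} {a b : V} : orb w a b ↔ SameCycle w a b := Iff.rfl

theorem orb_le {w : Equiv.Perm V} {s : Setoid V} : orb w ≤ s ↔ ∀ u, s u (w u) := by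
  constructor
  · intro h u; exact h (sameCycle_apply_right.2 (SameCycle.refl w u))
  · intro h u v huv
    obtain ⟨n, rfl⟩ := SameCycle.exists_nat_pow_eq huv
    clear huv
    induction n with
    | zero => exact s.refl _
    | succ n ih => rw [pow_succ', mul_apply]; exact s.trans ih (h _)

/-- explicit form of `s ⊔ gen a b` -/
def join (s : Setoid V) (a b : V) : Setoid V where
  r u v := s u v ∨ (s u a ∧ s b v) ∨ (s u b ∧ s a v)
  iseqv := by
    refine ⟨fun _ => Or.inl (s.refl _), ?_, ?_⟩
    · rintro u v (h | ⟨h, h'⟩ | ⟨h, h'⟩)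
      · exact Or.inl (s.symm h)
      · exact Or.inr (Or.inr ⟨s.symm h', s.symm h⟩)
      · exact Or.inr (Or.inl ⟨s.symm h', s.symm h⟩)
    · rintro u v z (h | ⟨h, h'⟩ | ⟨h, h'⟩) (k | ⟨k, k'⟩ | ⟨k, k'⟩)
      · exact Or.inl (s.trans h k)
      · exact Or.inr (Or.inl ⟨s.trans h k, k'⟩)
      · exact Or.inr (Or.inr ⟨s.trans h k, k'⟩)
      · exact Or.inr (Or.inl ⟨h, s.trans h' k⟩)
      · exact Or.inr (Or.inl ⟨h, k'⟩)
      · exact Or.inl (s.trans h k')
      · exact Or.inr (Or.inr ⟨h, s.trans h' k⟩)
      · exact Or.inl (s.trans h k')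
      · exact Or.inr (Or.inr ⟨h, k'⟩)

theorem sup_gen (s : Setoid V) (a b : V) : s ⊔ gen a b = join s a b := by
  apply le_antisymm
  · apply sup_le
    · intro u v h; exact Or.inl h
    · rw [gen_le]; exact Or.inr (Or.inl ⟨s.refl _, s.refl _⟩)
  · have h1 : s ≤ s ⊔ gen a b := le_sup_left
    have h2 : (s ⊔ gen a b) a b := gen_le.1 le_sup_right
    rintro u v (h | ⟨h, h'⟩ | ⟨h, h'⟩)
    · exact h1 h
    · exact (s ⊔ gen a b).trans (h1 h) ((s ⊔ gen a b).trans h2 (h1 h'))
    · exact (s ⊔ gen a b).trans (h1 h) ((s ⊔ gen a b).trans ((s ⊔ gen a b).symm h2) (h1 h'))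

theorem sup_gen_rel {s : Setoid V} {a b u v : V} :
    (s ⊔ gen a b) u v ↔ s u v ∨ (s u a ∧ s b v) ∨ (s u b ∧ s a v) := by
  rw [sup_gen]; exact Iff.rfl

theorem sup_gen_self {s : Setoid V} {a b : V} (h : s a b) : s ⊔ gen a b = s :=
  sup_eq_left.2 (gen_le.2 h)

/-- number of classes -/
noncomputable def cls (s : Setoid V) : ℕ := Nat.card (Quotient s)

theorem cls_join {s : Setoid V} {a b : V} (h : ¬ s a b) : cls (s ⊔ gen a b) + 1 = cls s := by
  classical
  rw [sup_gen]
  have e : {q : Quotient s | q ≠ Quotient.mk s b} ≃ Quotient (join s a b) := by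
    refine Equiv.ofBijective (fun q => Quotient.map (sa := s) (sb := join s a b) id
      (fun u v h => Or.inl h) q.1) ⟨?_, ?_⟩
    · rintro ⟨q, hq⟩ ⟨q', hq'⟩ e
      induction q using Quotient.inductionOn with
      | h u =>
      induction q' using Quotient.inductionOn with
      | h v =>
      have hu : ¬ s u b := fun h => hq (Quotient.sound h)
      have hv : ¬ s v b := fun h => hq' (Quotient.sound h)
      have e' : join s a b u v := Quotient.exact e
      apply Subtype.ext
      apply Quotient.sound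
      rcases e' with h | ⟨_, h⟩ | ⟨h, _⟩
      · exact h
      · exact absurd (s.symm h) hv
      · exact absurd h hu
    · intro q
      induction q using Quotient.inductionOn with
      | h u =>
      by_cases hu : s u b
      · refine ⟨⟨Quotient.mk s a, fun e => h (Quotient.exact e)⟩, ?_⟩
        apply Quotient.sound
        exact Or.inr (Or.inl ⟨s.refl _, s.symm hu⟩)
      · exact ⟨⟨Quotient.mk s u, fun e => hu (Quotient.exact e)⟩, rfl⟩
  haveI := Fintype.ofFinite (Quotient s)
  have h1 := Set.card_ne_eq (Quotient.mk s b)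
  have h2 : 0 < Fintype.card (Quotient s) := Fintype.card_pos_iff.2 ⟨Quotient.mk s b⟩
  unfold cls
  rw [← Nat.card_congr e, Nat.card_eq_fintype_card, Nat.card_eq_fintype_card, h1]
  omega

theorem cls_le (s : Setoid V) (a b : V) : cls s ≤ cls (s ⊔ gen a b) + 1 := by
  by_cases h : s a b
  · rw [sup_gen_self h]; omega
  · rw [cls_join h]

theorem cls_ge (s : Setoid V) (a b : V) : cls (s ⊔ gen a b) ≤ cls s := by
  by_cases h : s a b
  · rw [sup_gen_self h]
  · rw [← cls_join h]; omega

theorem orb_swap_mul_le (w : Equiv.Perm V) (a b : V) :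
    orb (Equiv.swap a b * w) ≤ orb w ⊔ gen a b := by
  rw [orb_le]
  intro u
  have h1 : orb w ≤ orb w ⊔ gen a b := le_sup_left
  have h2 : gen a b ≤ orb w ⊔ gen a b := le_sup_right
  have h3 : (orb w ⊔ gen a b) u (w u) := h1 (sameCycle_apply_right.2 (SameCycle.refl w u))
  refine (orb w ⊔ gen a b).trans h3 (h2 ?_)
  rw [mul_apply]
  generalize w u = z
  by_cases hza : z = a
  · subst hza; rw [Equiv.swap_apply_left]; exact Or.inr (Or.inl ⟨rfl, rfl⟩)
  · by_cases hzb : z = b
    · subst hzb; rw [Equiv.swap_apply_right]; exact Or.inr (Or.inr ⟨rfl, rfl⟩)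
    · rw [Equiv.swap_apply_of_ne_of_ne hza hzb]

theorem orb_swap_mul (w : Equiv.Perm V) (a b : V) :
    orb (Equiv.swap a b * w) ⊔ gen a b = orb w ⊔ gen a b := by
  apply le_antisymm
  · exact sup_le (orb_swap_mul_le w a b) le_sup_right
  · refine sup_le ?_ le_sup_right
    have := orb_swap_mul_le (Equiv.swap a b * w) a b
    rwa [← mul_assoc, Equiv.swap_mul_self, one_mul] at this

theorem not_both {w : Equiv.Perm V} {a b : V} (hab : a ≠ b) (h : SameCycle w a b) :
    ¬ SameCycle (Equiv.swap a b * w) a b := by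
  classical
  have hex : ∃ n : ℕ, 0 < n ∧ (w ^ n) a = b := by
    obtain ⟨i, hi, _, h3⟩ := h.exists_pow_eq''
    exact ⟨i, hi, h3⟩
  set m := Nat.find hex with hm
  have hm1 : 0 < m := (Nat.find_spec hex).1
  have hm2 : (w ^ m) a = b := (Nat.find_spec hex).2
  have hmin : ∀ i, 0 < i → i < m → (w ^ i) a ≠ b := fun i h0 hi e =>
    Nat.find_min hex hi ⟨h0, e⟩
  have hmin' : ∀ i, 0 < i → i < m → (w ^ i) a ≠ a := by
    intro i h0 hi e
    apply hmin (m - i) (by omega) (by omega)
    have : (w ^ m) a = (w ^ (m - i)) ((w ^ i) a) := by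
      rw [← mul_apply, ← pow_add]; congr 2; omega
    rw [← hm2, this, e]
  have hpow : ∀ i, i < m → ((Equiv.swap a b * w) ^ i) a = (w ^ i) a := by
    intro i
    induction i with
    | zero => intro _; rfl
    | succ i ih =>
      intro hi
      rw [pow_succ', mul_apply, ih (by omega), mul_apply, ← mul_apply w, ← pow_succ',
        Equiv.swap_apply_of_ne_of_ne (hmin' _ (by omega) hi) (hmin _ (by omega) hi)]
  have hper : ((Equiv.swap a b * w) ^ m) a = a := by
    obtain ⟨k, hk⟩ : ∃ k, m = k + 1 := ⟨m - 1, by omega⟩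
    rw [hk, pow_succ', mul_apply, hpow k (by omega), mul_apply, ← mul_apply w, ← pow_succ', ← hk,
      hm2, Equiv.swap_apply_right]
  intro h'
  obtain ⟨n, hn⟩ := SameCycle.exists_nat_pow_eq h'
  have hmod : ((Equiv.swap a b * w) ^ n) a = ((Equiv.swap a b * w) ^ (n % m)) a := by
    conv_lhs => rw [← Nat.mod_add_div n m, pow_add, pow_mul, mul_apply]
    congr 1
    generalize n / m = q
    induction q with
    | zero => rfl
    | succ q ih => rw [pow_succ, mul_apply, hper, ih]
  rw [hmod, hpow _ (Nat.mod_lt _ hm1)] at hn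
  rcases Nat.eq_zero_or_pos (n % m) with h0 | h0
  · rw [h0] at hn; exact hab hn
  · exact hmin _ h0 (Nat.mod_lt _ hm1) hn

theorem one_of_both {w : Equiv.Perm V} {a b : V} (h : ¬ SameCycle w a b) :
    SameCycle (Equiv.swap a b * w) a b := by
  classical
  have hex : ∃ n : ℕ, 0 < n ∧ (w ^ n) b = b := ⟨orderOf w, orderOf_pos w, by
    rw [pow_orderOf_eq_one]; rfl⟩
  set m := Nat.find hex with hm
  have hm1 : 0 < m := (Nat.find_spec hex).1
  have hm2 : (w ^ m) b = b := (Nat.find_spec hex).2
  have hmin : ∀ i, 0 < i → i < m → (w ^ i) b ≠ b := fun i h0 hi e =>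
    Nat.find_min hex hi ⟨h0, e⟩
  have hne : ∀ i : ℕ, (w ^ i) b ≠ a := by
    intro i e
    apply h
    apply SameCycle.symm
    exact ⟨i, by simpa using e⟩
  have hpow : ∀ i, i < m → ((Equiv.swap a b * w) ^ i) b = (w ^ i) b := by
    intro i
    induction i with
    | zero => intro _; rfl
    | succ i ih =>
      intro hi
      rw [pow_succ', mul_apply, ih (by omega), mul_apply, ← mul_apply w, ← pow_succ',
        Equiv.swap_apply_of_ne_of_ne (hne _) (hmin _ (by omega) hi)]
  have hper : ((Equiv.swap a b * w) ^ m) b = a := by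
    obtain ⟨k, hk⟩ : ∃ k, m = k + 1 := ⟨m - 1, by omega⟩
    rw [hk, pow_succ', mul_apply, hpow k (by omega), mul_apply, ← mul_apply w, ← pow_succ', ← hk,
      hm2, Equiv.swap_apply_right]
  apply SameCycle.symm
  exact ⟨m, by simpa using hper⟩

/-- multiplication by a transposition joining two cycles -/
theorem cls_orb_join {w : Equiv.Perm V} {a b : V} (h : ¬ SameCycle w a b) :
    cls (orb (Equiv.swap a b * w)) + 1 = cls (orb w) := by
  have h1 : orb (Equiv.swap a b * w) ⊔ gen a b = orb (Equiv.swap a b * w) :=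
    sup_gen_self (one_of_both h)
  rw [← h1, orb_swap_mul, cls_join h]

/-- multiplication by a transposition cutting a cycle -/
theorem cls_orb_cut {w : Equiv.Perm V} {a b : V} (hab : a ≠ b) (h : SameCycle w a b) :
    cls (orb (Equiv.swap a b * w)) = cls (orb w) + 1 := by
  have h1 : orb w ⊔ gen a b = orb w := sup_gen_self h
  rw [← cls_join (not_both hab h), orb_swap_mul, h1]

theorem orb_lab_le (l : List (V × V)) : orb (lab l).w ≤ (lab l).s := by
  induction l with
  | nil => rw [orb_le]; intro u; exact (⊥ : Setoid V).refl _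
  | cons p l ih =>
    rw [lab_cons]
    simp only [Lab.mul_w, Lab.mul_s, lt_w, lt_s]
    refine (orb_swap_mul_le _ _ _).trans ?_
    rw [sup_comm]
    exact sup_le_sup_left ih _

/-- a word label is planar if `length + 2 components = n + cycles` -/
def Planar (m : Lab V) : Prop := m.d + 2 * cls m.s = Fintype.card V + cls (orb m.w)

/-- a word label has low excess if `length + components ≤ n + 2` -/
def Low (m : Lab V) : Prop := m.d + cls m.s ≤ Fintype.card V + 2

theorem cls_bot : cls (⊥ : Setoid V) = Fintype.card V := by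
  unfold cls
  rw [← Nat.card_eq_fintype_card]
  refine (Nat.card_congr (Equiv.ofBijective (Quotient.mk (⊥ : Setoid V)) ⟨?_, ?_⟩)).symm
  · intro u v h; exact Quotient.exact h
  · intro q
    induction q using Quotient.inductionOn with
    | h u => exact ⟨u, rfl⟩

theorem genus_nonneg (l : List (V × V)) (hl : In Finset.univ l) :
    Fintype.card V + cls (orb (lab l).w) ≤ (lab l).d + 2 * cls (lab l).s := by
  induction l with
  | nil =>
    have h1 : orb (1 : Equiv.Perm V) = ⊥ := by
      apply le_antisymm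
      · rw [orb_le]; intro u; exact (⊥ : Setoid V).refl _
      · exact bot_le
    simp only [lab_nil, Lab.one_w, Lab.one_s, Lab.one_d, h1, cls_bot]; omega
  | cons p l ih =>
    rw [In_cons] at hl
    have ih := ih hl.2
    have hle := orb_lab_le l
    rw [lab_cons]
    simp only [Lab.mul_w, Lab.mul_s, Lab.mul_d, lt_w, lt_s, lt_d]
    rw [sup_comm (gen p.1 p.2)]
    by_cases hs : (lab l).s p.1 p.2
    · rw [sup_gen_self hs]
      by_cases hw : SameCycle (lab l).w p.1 p.2
      · rw [cls_orb_cut hl.1.2.2 hw]; omega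
      · have := cls_orb_join hw; omega
    · have hw : ¬ SameCycle (lab l).w p.1 p.2 := fun h => hs (hle h)
      have h1 := cls_orb_join hw
      have h2 := cls_join hs
      omega

/-- planarity is inherited by suffixes -/
theorem Planar.of_cons {a b : V} (hab : a ≠ b) {l : List (V × V)} (hl : In Finset.univ l)
    (h : Planar (lt a b * lab l)) :
    Planar (lab l) ∧ (¬ (lab l).s a b ∨ SameCycle (lab l).w a b) := by
  have hg := genus_nonneg l hl
  have hle := orb_lab_le l
  unfold Planar at *
  simp only [Lab.mul_w, Lab.mul_s, Lab.mul_d, lt_w, lt_s, lt_d] at h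
  rw [sup_comm (gen a b)] at h
  by_cases hs : (lab l).s a b
  · rw [sup_gen_self hs] at h
    by_cases hw : SameCycle (lab l).w a b
    · rw [cls_orb_cut hab hw] at h
      exact ⟨by omega, Or.inr hw⟩
    · have := cls_orb_join hw; exfalso; omega
  · have hw : ¬ SameCycle (lab l).w a b := fun h => hs (hle h)
    have h1 := cls_orb_join hw
    have h2 := cls_join hs
    exact ⟨by omega, Or.inl hs⟩

theorem Low.of_cons {a b : V} {m : Lab V} (h : Low (lt a b * m)) : Low m := by
  unfold Low at *
  simp only [Lab.mul_s, Lab.mul_d, lt_s, lt_d] at h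
  rw [sup_comm (gen a b)] at h
  have := cls_le m.s a b
  omega

/-- multiplication on the right and on the left by a letter -/
theorem lab_mul_lt (l : List (V × V)) (a b : V) :
    lab l * lt a b = lt ((lab l).w a) ((lab l).w b) * lab l := by
  have hle := orb_lab_le l
  have h : ∀ u, (lab l).s u ((lab l).w u) := orb_le.1 hle
  apply Lab.ext
  · simp only [Lab.mul_w, lt_w]
    rw [Equiv.mul_swap_eq_swap_mul]
  · simp only [Lab.mul_s, lt_s]
    set s := (lab l).s
    set w := (lab l).w
    rw [sup_comm (gen _ _)]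
    apply le_antisymm
    · refine sup_le le_sup_left ?_
      rw [gen_le]
      have h1 : s ≤ s ⊔ gen (w a) (w b) := le_sup_left
      have h2 : (s ⊔ gen (w a) (w b)) (w a) (w b) := gen_le.1 le_sup_right
      exact Setoid.trans' _ (h1 (h a)) (Setoid.trans' _ h2 (Setoid.symm' _ (h1 (h b))))
    · refine sup_le le_sup_left ?_
      rw [gen_le]
      have h1 : s ≤ s ⊔ gen a b := le_sup_left
      have h2 : (s ⊔ gen a b) a b := gen_le.1 le_sup_right
      exact Setoid.trans' _ (Setoid.symm' _ (h1 (h a))) (Setoid.trans' _ h2 (h1 (h b)))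
  · simp only [Lab.mul_d, lt_d]; omega

theorem Planar.of_snoc {a b : V} (hab : a ≠ b) {l : List (V × V)} (hl : In Finset.univ l)
    (h : Planar (lab l * lt a b)) :
    Planar (lab l) ∧ (¬ (lab l).s a b ∨ SameCycle (lab l).w a b) := by
  rw [lab_mul_lt] at h
  obtain ⟨h1, h2⟩ := h.of_cons (by simpa using hab) hl
  refine ⟨h1, ?_⟩
  rcases h2 with h2 | h2
  · left
    intro h3
    apply h2
    have h : ∀ u, (lab l).s u ((lab l).w u) := orb_le.1 (orb_lab_le l)
    exact Setoid.trans' _ (Setoid.symm' _ (h a)) (Setoid.trans' _ h3 (h b))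
  · right
    simpa using h2

end Pool.Agent.H71.FK
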