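import Pool.Agent.H71.FK.Label

/-! The twisted derivations and the labels. -/

namespace Pool.Agent.H71.FK

set_option linter.unusedSectionVars false

variable {V : Type} [DecidableEq V] [Fintype V]

/-- words with (nondegenerate) letters in `T` -/
def In (T : Finset V) (l : List (V × V)) : Prop := ∀ p ∈ l, p.1 ∈ T ∧ p.2 ∈ T ∧ p.1 ≠ p.2

@[simp] theorem In_nil (T : Finset V) : In T ([] : List (V × V)) := by simp [In]

theorem In_cons {T : Finset V} {p : V × V} {l : List (V × V)} :
    In T (p :: l) ↔ (p.1 ∈ T ∧ p.2 ∈ T ∧ p.1 ≠ p.2) ∧ In T l := by simp [In]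

theorem In_append {T : Finset V} {l l' : List (V × V)} :
    In T (l ++ l') ↔ In T l ∧ In T l' := by
  simp only [In, List.mem_append]
  constructor
  · intro h; exact ⟨fun p hp => h p (Or.inl hp), fun p hp => h p (Or.inr hp)⟩
  · rintro ⟨h1, h2⟩ p (hp | hp)
    · exact h1 p hp
    · exact h2 p hp

theorem In.mono {T T' : Finset V} (h : T ⊆ T') {l : List (V × V)} (hl : In T l) : In T' l :=
  fun p hp => ⟨h (hl p hp).1, h (hl p hp).2.1, (hl p hp).2.2⟩

/-- span of monomials with letters in `T` and label in `C` -/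
noncomputable def Sp (T : Finset V) (C : Lab V → Prop) : Submodule ℚ (E V) :=
  Submodule.span ℚ {p | ∃ l, In T l ∧ C (lab l) ∧ mon l = p}

theorem mon_mem_Sp {T : Finset V} {C : Lab V → Prop} {l : List (V × V)} (h : In T l)
    (hC : C (lab l)) : mon l ∈ Sp T C := Submodule.subset_span ⟨l, h, hC, rfl⟩

theorem Sp_mono {T : Finset V} {C C' : Lab V → Prop} (h : ∀ l, In T l → C (lab l) → C' (lab l)) :
    Sp T C ≤ Sp T C' := by
  apply Submodule.span_mono
  rintro p ⟨l, h1, h2, rfl⟩
  exact ⟨l, h1, h l h1 h2, rfl⟩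

/-- elements of `Sp` are handled by checking monomials -/
theorem Sp_le {T : Finset V} {C : Lab V → Prop} {W : Submodule ℚ (E V)} {f : E V →ₗ[ℚ] E V}
    (h : ∀ l, In T l → C (lab l) → f (mon l) ∈ W) {p : E V} (hp : p ∈ Sp T C) : f p ∈ W := by
  have : Sp T C ≤ W.comap f := by
    apply Submodule.span_le.2
    rintro p ⟨l, h1, h2, rfl⟩
    exact h l h1 h2
  exact this hp

theorem swap_mem {T : Finset V} {a b c : V} (ha : a ∈ T) (hb : b ∈ T) (hc : c ∈ T) :
    Equiv.swap a b c ∈ T := by
  rw [Equiv.swap_apply_def]; split_ifs <;> assumption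

theorem D_mon_mem {T : Finset V} {a b : V} (ha : a ∈ T) (hb : b ∈ T)
    (l : List (V × V)) (hl : In T l) : D a b (mon l) ∈ Sp T (fun m => lt a b * m = lab l) := by
  induction l with
  | nil => simp
  | cons p l ih =>
    obtain ⟨c, d⟩ := p
    rw [In_cons] at hl
    obtain ⟨⟨hc, hd, hcd⟩, hl⟩ := hl
    rw [mon_cons, D_mul, D_x, act_x]
    apply Submodule.add_mem
    · rw [smul_mul_assoc, one_mul]
      rcases del_cases a b c d with h | ⟨rfl, rfl⟩ | ⟨rfl, rfl⟩
      · simp [h]
      · apply Submodule.smul_mem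
        exact mon_mem_Sp hl (by simp)
      · apply Submodule.smul_mem
        exact mon_mem_Sp hl (by simp [lt_comm])
    · refine Sp_le (f := LinearMap.mulLeft ℚ (x (Equiv.swap a b c) (Equiv.swap a b d))) ?_ (ih hl)
      intro l' hl' e
      rw [LinearMap.mulLeft_apply, ← mon_cons (Equiv.swap a b c, Equiv.swap a b d)]
      apply mon_mem_Sp
      · rw [In_cons]
        exact ⟨⟨swap_mem ha hb hc, swap_mem ha hb hd, by simpa using hcd⟩, hl'⟩
      · rw [lab_cons, lab_cons, ← e, ← mul_assoc, ← mul_assoc]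
        congr 1
        exact lt_conj hcd

theorem mon_eq_zero_or_In (l : List (V × V)) : mon l = 0 ∨ In Finset.univ l := by
  by_cases h : ∃ p ∈ l, p.1 = p.2
  · left
    obtain ⟨p, hp, e⟩ := h
    obtain ⟨l1, l2, rfl⟩ := List.append_of_mem hp
    rw [mon_append, mon_cons, e, x_self]; simp
  · right
    push Not at h
    intro p hp
    exact ⟨Finset.mem_univ _, Finset.mem_univ _, h p hp⟩

theorem Sp_gam {C : Lab V} {a b : V} {u : E V} (T : Finset V)
    (hu : u ∈ Sp T (fun m => lt a b * m = C)) :
    MonoidAlgebra.single (lt a b) 1 * gam u = MonoidAlgebra.single C u := by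
  induction hu using Submodule.span_induction with
  | mem p hp =>
    obtain ⟨l, _, e, rfl⟩ := hp
    rw [gam_mon, MonoidAlgebra.single_mul_single, one_mul, e]
  | zero => simp
  | add p q _ _ hp hq => rw [map_add, mul_add, hp, hq, MonoidAlgebra.single_add]
  | smul r p _ hp => rw [map_smul, mul_smul_comm, hp, MonoidAlgebra.smul_single]

theorem gam_D (a b : V) (p : E V) (m : Lab V) :
    (MonoidAlgebra.single (lt a b) 1 * gam (D a b p)).coeff m = D a b (comp m p) := by
  classical
  induction p using mon_induct with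
  | hm l =>
    rcases mon_eq_zero_or_In l with h | h
    · rw [h]; simp
    · rw [Sp_gam (C := lab l) Finset.univ (D_mon_mem (Finset.mem_univ _) (Finset.mem_univ _) l h),
        comp_mon, MonoidAlgebra.coeff_single, Finsupp.single_apply]
      split_ifs <;> simp
  | hadd p q hp hq =>
    rw [map_add, map_add, mul_add, MonoidAlgebra.coeff_add, Finsupp.add_apply, hp, hq, map_add,
      map_add]
  | hsmul r p hp =>
    rw [map_smul, map_smul, mul_smul_comm, MonoidAlgebra.coeff_smul, Finsupp.smul_apply, hp,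
      map_smul, map_smul]

/-- components of elements killed by `D a b` are killed by `D a b` -/
theorem D_comp {a b : V} {p : E V} (h : D a b p = 0) (m : Lab V) : D a b (comp m p) = 0 := by
  rw [← gam_D, h]; simp

theorem comp_mem {T : Finset V} {C : Lab V → Prop} {p : E V} (hp : p ∈ Sp T C) (m : Lab V) :
    comp m p ∈ Sp T (fun m' => m' = m ∧ C m') := by
  classical
  refine Sp_le ?_ hp
  intro l h1 h2
  rw [comp_mon]
  split_ifs with h
  · exact mon_mem_Sp h1 ⟨h, h2⟩
  · exact Submodule.zero_mem _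

theorem comp_self {T : Finset V} {m : Lab V} {p : E V} (hp : p ∈ Sp T (fun m' => m' = m)) :
    comp m p = p := by
  classical
  induction hp using Submodule.span_induction with
  | mem p hp => obtain ⟨l, _, e, rfl⟩ := hp; rw [comp_mon, if_pos e]
  | zero => simp
  | add p q _ _ hp hq => rw [map_add, hp, hq]
  | smul r p _ hp => rw [map_smul, hp]

/-- `D a b` maps `Sp T C` to `Sp T C'` -/
theorem D_mem {T : Finset V} {C C' : Lab V → Prop} {a b : V} (ha : a ∈ T) (hb : b ∈ T)
    (h : ∀ l, In T l → C (lt a b * lab l) → C' (lab l)) {p : E V} (hp : p ∈ Sp T C) :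
    D a b p ∈ Sp T C' := by
  refine Sp_le ?_ hp
  intro l h1 h2
  refine Sp_mono ?_ (D_mon_mem ha hb l h1)
  intro l' hl' e
  exact h l' hl' (by rw [e]; exact h2)

end Pool.Agent.H71.FK
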