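import Pool.Agent.H71.FK.Basic

/-! The canonical bilinear form, its symmetry. -/

namespace Pool.Agent.H71.FK

variable {V : Type} [DecidableEq V]

/-- `P ↦ Δ_P`. -/
noncomputable def Phi : E V →ₐ[ℚ] Module.End ℚ (E V) := lift _ good_D

@[simp] theorem Phi_x (a b : V) : Phi (x a b) = (D a b : Module.End ℚ (E V)) := by simp [Phi]

theorem Phi_x_mul (a b : V) (P Q : E V) : Phi (x a b * P) Q = D a b (Phi P Q) := by
  rw [map_mul, Phi_x]; rfl

/-- The canonical form `⟨P, Q⟩ = Δ_P(Q)` (degree `0` part). -/
noncomputable def form (P Q : E V) : ℚ := eps (Phi P Q)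

theorem form_add_left (P P' Q : E V) : form (P + P') Q = form P Q + form P' Q := by
  simp [form]

theorem form_smul_left (r : ℚ) (P Q : E V) : form (r • P) Q = r * form P Q := by
  simp [form]

theorem form_add_right (P Q Q' : E V) : form P (Q + Q') = form P Q + form P Q' := by
  simp [form]

theorem form_smul_right (r : ℚ) (P Q : E V) : form P (r • Q) = r * form P Q := by
  simp [form]

theorem Phi_mul_x (a b : V) (P Q : E V) :
    Phi Q (P * x a b) = Phi Q P * x a b + act (Equiv.swap a b) (Phi (D a b Q) P) := by
  induction Q using mon_induct with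
  | hm l =>
    induction l with
    | nil => simp
    | cons p l ih =>
      obtain ⟨c, d⟩ := p
      rw [mon_cons, Phi_x_mul, Phi_x_mul, ih, map_add, D_mul, D_x, D_mul, D_x, map_add, act_x]
      rw [LinearMap.add_apply, map_add, Phi_x_mul, act_D, Equiv.swap_apply_self,
        Equiv.swap_apply_self]
      have h1 : del c d a b • act (Equiv.swap c d) (Phi (mon l) P)
          = del a b c d • act (Equiv.swap a b) (Phi (mon l) P) := by
        have e : del c d a b = del a b c d := by
          unfold del
          simp only [eq_comm (a := a), eq_comm (a := b), and_comm]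
        rw [e]
        rcases del_cases a b c d with h | ⟨rfl, rfl⟩ | ⟨rfl, rfl⟩
        · simp [h]
        · rfl
        · rw [Equiv.swap_comm]
      simp only [mul_smul_comm, mul_one, smul_mul_assoc, one_mul, map_smul, LinearMap.smul_apply]
      rw [h1]; abel
  | hadd p q hp hq =>
    simp only [map_add, LinearMap.add_apply, hp, hq, add_mul]; abel
  | hsmul r p hp =>
    simp only [map_smul, LinearMap.smul_apply, hp, smul_mul_assoc, smul_add]

theorem form_right_mul_x (a b : V) (P Q : E V) : form Q (P * x a b) = form (D a b Q) P := by
  unfold form; rw [Phi_mul_x]; simp [eps_act]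

theorem form_left_mul_x (a b : V) (P Q : E V) : form (P * x a b) Q = form P (D a b Q) := by
  unfold form; rw [map_mul, Phi_x]; rfl

theorem form_one_left (Q : E V) : form 1 Q = eps Q := by simp [form]

theorem form_one_right (Q : E V) : form Q 1 = eps Q := by
  induction Q using mon_induct with
  | hm l =>
    induction l with
    | nil => simp [form]
    | cons p l ih =>
      have : ∀ l : List (V × V), ∃ c : ℚ, Phi (mon l) 1 = c • (1 : E V) := by
        intro l
        induction l with
        | nil => exact ⟨1, by simp⟩
        | cons q l ih => obtain ⟨c, hc⟩ := ih; exact ⟨0, by rw [mon_cons, Phi_x_mul, hc]; simp⟩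
      obtain ⟨c, hc⟩ := this l
      unfold form
      rw [mon_cons, Phi_x_mul, hc]; simp
  | hadd p q hp hq => rw [form_add_left, hp, hq, map_add]
  | hsmul r p hp => rw [form_smul_left, hp, map_smul]; rfl

/-- The form is symmetric. -/
theorem form_symm (P Q : E V) : form P Q = form Q P := by
  induction P using mon_induct generalizing Q with
  | hm l =>
    induction l using List.reverseRecOn generalizing Q with
    | nil => rw [mon_nil, form_one_left, form_one_right]
    | append_singleton l p ih =>
      rw [mon_append, mon_cons, mon_nil, mul_one, form_left_mul_x, form_right_mul_x, ih]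
  | hadd p q hp hq => rw [form_add_left, form_add_right, hp, hq]
  | hsmul r p hp => rw [form_smul_left, form_smul_right, hp]

end Pool.Agent.H71.FK
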