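import Pool.Agent.H71.FK.Form

/-! Labels of words: (product permutation, partition into components, length). -/

namespace Pool.Agent.H71.FK

variable {V : Type}

/-- The equivalence relation generated by one pair. -/
def gen (a b : V) : Setoid V where
  r u v := u = v ∨ (u = a ∧ v = b) ∨ (u = b ∧ v = a)
  iseqv := by
    refine ⟨fun _ => Or.inl rfl, ?_, ?_⟩
    · rintro u v (rfl | ⟨rfl, rfl⟩ | ⟨rfl, rfl⟩) <;> simp
    · rintro u v z (rfl | ⟨rfl, rfl⟩ | ⟨rfl, rfl⟩) (rfl | ⟨h, rfl⟩ | ⟨h, rfl⟩) <;> simp_all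

theorem gen_rel (a b u v : V) : gen a b u v ↔ u = v ∨ (u = a ∧ v = b) ∨ (u = b ∧ v = a) := Iff.rfl

theorem gen_self_rel (a b : V) : gen a b a b := Or.inr (Or.inl ⟨rfl, rfl⟩)

theorem gen_le {a b : V} {s : Setoid V} : gen a b ≤ s ↔ s a b := by
  constructor
  · intro h; exact h (gen_self_rel a b)
  · intro h u v huv
    rcases huv with rfl | ⟨rfl, rfl⟩ | ⟨rfl, rfl⟩
    · exact s.refl _
    · exact h
    · exact s.symm h

theorem gen_comm (a b : V) : gen a b = gen b a := by
  apply le_antisymm
  · rw [gen_le]; exact (gen b a).symm (gen_self_rel b a)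
  · rw [gen_le]; exact (gen a b).symm (gen_self_rel a b)

theorem gen_tri (a b c : V) : gen a b ⊔ gen b c = gen b c ⊔ gen c a := by
  have h1 : gen b c ≤ gen a b ⊔ gen b c := le_sup_right
  have h2 : gen a b ≤ gen a b ⊔ gen b c := le_sup_left
  have h3 : gen b c ≤ gen b c ⊔ gen c a := le_sup_left
  have h4 : gen c a ≤ gen b c ⊔ gen c a := le_sup_right
  apply le_antisymm
  · refine sup_le ?_ h3
    rw [gen_le]
    exact (gen b c ⊔ gen c a).symm ((gen b c ⊔ gen c a).trans (gen_le.1 h3) (gen_le.1 h4))
  · refine sup_le h1 ?_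
    rw [gen_le]
    exact (gen a b ⊔ gen b c).symm ((gen a b ⊔ gen b c).trans (gen_le.1 h2) (gen_le.1 h1))

/-- Labels. -/
@[ext] structure Lab (V : Type) where
  /-- the permutation -/
  w : Equiv.Perm V
  /-- the partition -/
  s : Setoid V
  /-- the length -/
  d : ℕ

instance : Mul (Lab V) := ⟨fun m m' => ⟨m.w * m'.w, m.s ⊔ m'.s, m.d + m'.d⟩⟩
instance : One (Lab V) := ⟨⟨1, ⊥, 0⟩⟩

@[simp] theorem Lab.mul_w (m m' : Lab V) : (m * m').w = m.w * m'.w := rfl
@[simp] theorem Lab.mul_s (m m' : Lab V) : (m * m').s = m.s ⊔ m'.s := rfl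
@[simp] theorem Lab.mul_d (m m' : Lab V) : (m * m').d = m.d + m'.d := rfl
@[simp] theorem Lab.one_w : (1 : Lab V).w = 1 := rfl
@[simp] theorem Lab.one_s : (1 : Lab V).s = ⊥ := rfl
@[simp] theorem Lab.one_d : (1 : Lab V).d = 0 := rfl

instance : Monoid (Lab V) where
  mul_assoc a b c := Lab.ext (mul_assoc _ _ _) (sup_assoc _ _ _) (add_assoc _ _ _)
  one_mul a := Lab.ext (one_mul _) (bot_sup_eq _) (zero_add _)
  mul_one a := Lab.ext (mul_one _) (sup_bot_eq _) (add_zero _)

variable [DecidableEq V]

/-- label of a letter -/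
def lt (a b : V) : Lab V := ⟨Equiv.swap a b, gen a b, 1⟩

@[simp] theorem lt_w (a b : V) : (lt a b).w = Equiv.swap a b := rfl
@[simp] theorem lt_s (a b : V) : (lt a b).s = gen a b := rfl
@[simp] theorem lt_d (a b : V) : (lt a b).d = 1 := rfl

theorem lt_comm (a b : V) : lt a b = lt b a := by
  apply Lab.ext
  · exact Equiv.swap_comm a b
  · exact gen_comm a b
  · rfl

theorem lt_disj {a b c d : V} (h2 : a ≠ c) (h3 : a ≠ d) (h4 : b ≠ c) (h5 : b ≠ d) :
    lt a b * lt c d = lt c d * lt a b := by
  apply Lab.ext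
  · exact swap_comm_swap h2 h3 h4 h5
  · exact sup_comm _ _
  · rfl

theorem lt_tri {a b c : V} (h1 : a ≠ b) (h2 : b ≠ c) (h3 : c ≠ a) :
    lt a b * lt b c = lt b c * lt c a := by
  apply Lab.ext
  · exact swap_tri h1 h2 h3
  · exact gen_tri a b c
  · rfl

theorem lt_conj {a b c d : V} (hcd : c ≠ d) :
    lt a b * lt (Equiv.swap a b c) (Equiv.swap a b d) = lt c d * lt a b := by
  by_cases hab : a = b
  · subst hab
    apply Lab.ext
    · simp only [Lab.mul_w, lt_w, Equiv.swap_self]; rfl
    · simp [sup_comm]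
    · rfl
  by_cases hca : c = a
  · subst hca
    by_cases hdb : d = b
    · subst hdb; simp [lt_comm]
    · rw [Equiv.swap_apply_left, Equiv.swap_apply_of_ne_of_ne hcd.symm hdb, lt_comm c d,
        lt_tri hcd.symm hab (Ne.symm hdb)]
  · by_cases hcb : c = b
    · subst hcb
      by_cases hda : d = a
      · subst hda; simp [lt_comm]
      · rw [Equiv.swap_apply_right, Equiv.swap_apply_of_ne_of_ne hda hcd.symm, lt_comm a c,
          lt_comm c d, lt_tri hcd.symm (Ne.symm hab) (Ne.symm hda)]
    · by_cases hda : d = a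
      · subst hda
        rw [Equiv.swap_apply_left, Equiv.swap_apply_of_ne_of_ne hca hcb, lt_comm c b, 
          lt_tri hca hab (Ne.symm hcb)]
      · by_cases hdb : d = b
        · subst hdb
          rw [Equiv.swap_apply_right, Equiv.swap_apply_of_ne_of_ne hca hcb, lt_comm c a, 
            lt_comm a d, lt_tri hcb (Ne.symm hab) (Ne.symm hca)]
        · rw [Equiv.swap_apply_of_ne_of_ne hda hdb, Equiv.swap_apply_of_ne_of_ne hca hcb]
          exact lt_disj (Ne.symm hca) (Ne.symm hda) (Ne.symm hcb) (Ne.symm hdb)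

/-- label of a word -/
def lab (l : List (V × V)) : Lab V := (l.map fun p => lt p.1 p.2).prod

@[simp] theorem lab_nil : lab ([] : List (V × V)) = 1 := rfl
@[simp] theorem lab_cons (p : V × V) (l : List (V × V)) : lab (p :: l) = lt p.1 p.2 * lab l := by
  simp [lab]
theorem lab_append (l l' : List (V × V)) : lab (l ++ l') = lab l * lab l' := by
  simp [lab]

theorem lab_d (l : List (V × V)) : (lab l).d = l.length := by
  induction l with
  | nil => rfl
  | cons p l ih => simp [ih, add_comm]

open MonoidAlgebra in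
theorem good_gam : Good (fun a b : V => (single (lt a b) (x a b) : MonoidAlgebra (E V) (Lab V))) where
  anti a b := by
    rw [x_anti a b, lt_comm]
    ext; simp
  sq a b h := by rw [single_mul_single, x_sq]; simp
  comm a b c d h1 h2 h3 h4 h5 h6 := by
    rw [single_mul_single, single_mul_single, lt_disj h2 h3 h4 h5, x_comm h1 h2 h3 h4 h5 h6]
  tri a b c h1 h2 h3 := by
    rw [single_mul_single, single_mul_single, single_mul_single, lt_tri h3 h1 h2, lt_tri h1 h2 h3,
      ← single_add, ← single_add, x_tri h1 h2 h3]; simp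

/-- The grading by labels. -/
noncomputable def gam : E V →ₐ[ℚ] MonoidAlgebra (E V) (Lab V) := lift _ good_gam

theorem gam_mon (l : List (V × V)) : gam (mon l) = MonoidAlgebra.single (lab l) (mon l) := by
  induction l with
  | nil => simp [MonoidAlgebra.one_def]
  | cons p l ih => rw [mon_cons, map_mul, ih, lab_cons]; simp [gam]

/-- The component of label `m`. -/
noncomputable def comp (m : Lab V) : E V →ₗ[ℚ] E V where
  toFun p := (gam p).coeff m
  map_add' p q := by simp
  map_smul' r p := by simp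

open Classical in
theorem comp_mon (m : Lab V) (l : List (V × V)) :
    comp m (mon l) = if lab l = m then mon l else 0 := by
  change (gam (mon l)).coeff m = _
  rw [gam_mon, MonoidAlgebra.coeff_single, Finsupp.single_apply]

/-- every element is the sum of its components -/
theorem sum_comp (p : E V) : ∃ S : Finset (Lab V), p = ∑ m ∈ S, comp m p := by
  have key : (gam p).coeff.sum (fun _ e => e) = p := by
    induction p using mon_induct with
    | hm l => rw [gam_mon]; simp
    | hadd p q hp hq =>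
      rw [map_add, MonoidAlgebra.coeff_add, Finsupp.sum_add_index' (by simp) (by simp), hp, hq]
    | hsmul r p hp =>
      rw [map_smul, MonoidAlgebra.coeff_smul]
      rw [Finsupp.sum_smul_index' (by simp)]
      nth_rewrite 2 [← hp]
      rw [Finsupp.smul_sum]
  exact ⟨(gam p).coeff.support, key.symm⟩

end Pool.Agent.H71.FK
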