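import Pool.Agent.H71.FK.Stack

/-! Star words of low excess. -/

namespace Pool.Agent.H71.FK

set_option linter.unusedSectionVars false

open Equiv.Perm

variable {V : Type} [DecidableEq V] [Fintype V]

theorem low_iff {o : V} (t : List V) (ht : o ∉ t) :
    Low (lab (sw o t)) ↔ t.length ≤ t.toFinset.card + 2 := by
  unfold Low
  have h1 := cls_sw t ht
  rw [lab_d]
  have h2 : (sw o t).length = t.length := by simp [sw]
  omega

theorem pw_ne {o i : V} (hi : i ≠ o) (t : List V) (ht : i ∉ t) : pw o t o ≠ i := by
  intro h
  have h2 := pw_fix hi t ht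
  exact hi ((pw o t).injective (by rw [h, h2]))

/-- a letter which occurs once is moved -/
theorem count_ne_one {o i : V} {t : List V} (ht : o ∉ t) (hc : t.count i = 1) : pw o t i ≠ i := by
  have hi : i ∈ t := by
    rw [← List.count_pos_iff]; omega
  have hio : i ≠ o := by rintro rfl; exact ht hi
  obtain ⟨A, B, rfl, hA⟩ := List.eq_append_cons_of_mem hi
  have hB : i ∉ B := by
    rw [List.count_append, List.count_cons_self] at hc
    exact List.count_eq_zero.1 (by omega)
  rw [pw_append, pw_cons, mul_apply, mul_apply, pw_fix hio B hB, Equiv.swap_apply_right]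
  exact pw_ne hio A hA

theorem low_one {o : V} (t : List V) (ht : o ∉ t) (h : t.length ≤ t.toFinset.card + 2)
    (hw : pw o t = 1) (hne : t ≠ []) : Adj t := by
  by_contra hadj
  have h2 : ∀ i ∈ t, 2 ≤ t.count i := by
    intro i hi
    have h1 : 0 < t.count i := List.count_pos_iff.2 hi
    have h3 : t.count i ≠ 1 := fun h => count_ne_one ht h (by rw [hw]; rfl)
    omega
  have h3 : 2 * t.toFinset.card ≤ t.length := by
    have h4 : ∑ i ∈ t.toFinset, t.count i = t.length := List.sum_toFinset_count_eq_length t
    rw [← h4, mul_comm, ← smul_eq_mul]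
    exact Finset.card_nsmul_le_sum _ _ _ (fun i hi => h2 i (by simpa using hi))
  have h4 : t.length ≤ 4 := by omega
  match t, ht, h2, h4, hadj, hw, hne with
  | [], _, _, _, _, _, hne => exact hne rfl
  | [a], _, h2, _, _, _, _ => simpa using h2 a (by simp)
  | [a, b], _, h2, _, hadj, _, _ =>
    have hab : a ≠ b := fun e => hadj ⟨[], a, [], by simp [e]⟩
    have := h2 a (by simp)
    simp [hab.symm] at this
  | [a, b, c], _, h2, _, hadj, _, _ =>
    have hab : a ≠ b := fun e => hadj ⟨[], a, [c], by simp [e]⟩
    have hbc : b ≠ c := fun e => hadj ⟨[a], b, [], by simp [e]⟩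
    have := h2 b (by simp)
    simp [hab, hbc.symm] at this
  | [a, b, c, d], ht, h2, _, hadj, hw, _ =>
    have hab : a ≠ b := fun e => hadj ⟨[], a, [c, d], by simp [e]⟩
    have hbc : b ≠ c := fun e => hadj ⟨[a], b, [d], by simp [e]⟩
    have hcd : c ≠ d := fun e => hadj ⟨[a, b], c, [], by simp [e]⟩
    have hbd : b = d := by
      by_contra hbd
      have := h2 b (by simp)
      simp [hab, hbc.symm, Ne.symm hbd] at this
    have hac : a = c := by
      by_contra hac
      have := h2 c (by simp)
      simp [hac, hbc, hcd.symm] at this
    subst hbd hac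
    have hao : a ≠ o := by rintro rfl; exact ht (by simp)
    have hbo : b ≠ o := by rintro rfl; exact ht (by simp)
    have h5 : pw o [a, b, a, b] o = o := by rw [hw]; rfl
    rw [pw_cons, pw_cons, pw_cons, pw_cons, pw_nil, mul_one] at h5
    simp only [mul_apply] at h5
    rw [Equiv.swap_apply_left, Equiv.swap_apply_of_ne_of_ne hbo hab.symm, Equiv.swap_apply_right,
      Equiv.swap_apply_left] at h5
    exact hao h5
  | a :: b :: c :: d :: e :: l, _, _, h4, _, _, _ => simp at h4; omega

/-- in a word of excess at most two which maps `o` to `j`, between two consecutive `j`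
  there is no repetition -/
theorem low_split {o j : V} (t : List V) (ht : o ∉ t) (h : t.length ≤ t.toFinset.card + 2)
    (hj : pw o t o = j) (hjo : j ≠ o) (hc : 2 ≤ t.count j) :
    ∃ A U B, t = A ++ (j :: U ++ [j]) ++ B ∧ (j :: U).Nodup := by
  have hjt : j ∈ t := by rw [← List.count_pos_iff]; omega
  obtain ⟨A, t', rfl, hA⟩ := List.eq_append_cons_of_mem hjt
  have hjt' : j ∈ t' := by
    rw [List.count_append, List.count_cons_self, List.count_eq_zero_of_not_mem hA] at hc
    rw [← List.count_pos_iff]; omega
  obtain ⟨U, B, rfl, hU⟩ := List.eq_append_cons_of_mem hjt'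
  refine ⟨A, U, B, by simp, ?_⟩
  rw [List.nodup_cons]
  refine ⟨hU, ?_⟩
  by_contra hUn
  have c1 : U.toFinset.card < U.length := by
    refine lt_of_le_of_ne (List.toFinset_card_le U) ?_
    intro e
    exact hUn ((Multiset.toFinset_card_eq_card_iff_nodup (m := (U : Multiset V))).1
      (by simpa using e))
  set M := j :: (A ++ B) with hM
  have c2 : (A ++ j :: (U ++ j :: B)).toFinset.card
      ≤ U.toFinset.card + (M.toFinset \ U.toFinset).card := by
    rw [← Finset.card_union_of_disjoint Finset.disjoint_sdiff]
    apply Finset.card_le_card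
    intro i hi
    simp only [List.mem_toFinset, List.mem_append, List.mem_cons, Finset.mem_union,
      Finset.mem_sdiff, hM] at hi ⊢
    tauto
  have c3 : (M.toFinset \ U.toFinset).card ≤ M.toFinset.card :=
    Finset.card_le_card Finset.sdiff_subset
  have c4 : M.toFinset.card ≤ M.length := List.toFinset_card_le M
  have c5 : (A ++ j :: (U ++ j :: B)).length = U.length + M.length + 1 := by
    simp [hM]; omega
  have c6 : M.toFinset.card = M.length := by omega
  have c7 : (M.toFinset \ U.toFinset).card = M.toFinset.card := by omega
  have hMn : M.Nodup :=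
    (Multiset.toFinset_card_eq_card_iff_nodup (m := (M : Multiset V))).1 (by simpa using c6)
  have hMU : M.toFinset \ U.toFinset = M.toFinset :=
    Finset.eq_of_subset_of_card_le Finset.sdiff_subset c7.ge
  have hdis : ∀ i ∈ M, i ∉ U := by
    intro i hi hiU
    have : i ∈ M.toFinset \ U.toFinset := by rw [hMU]; simpa using hi
    rw [Finset.mem_sdiff] at this
    exact this.2 (by simpa using hiU)
  rw [hM, List.nodup_cons, List.nodup_append] at hMn
  obtain ⟨m1, m2, m3, m4⟩ := hMn
  rw [pw_append, pw_cons, pw_append, pw_cons] at hj
  simp only [mul_apply] at hj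
  rcases List.eq_nil_or_concat B with rfl | ⟨B', e, rfl⟩
  · rw [pw_nil, one_apply, Equiv.swap_apply_left, pw_fix hjo U hU, Equiv.swap_apply_right] at hj
    exact pw_ne hjo A hA hj
  · rw [List.concat_eq_append] at *
    have heo : e ≠ o := by rintro rfl; exact ht (by simp)
    have heB : e ∉ B' := by
      rw [List.nodup_append] at m3
      intro he
      exact m3.2.2 e he e (by simp) rfl
    have hej : e ≠ j := by rintro rfl; exact m1 (by simp)
    have heU : e ∉ U := hdis e (by simp [hM])
    have heA : e ∉ A := by
      intro he
      exact m4 e he e (by simp) rfl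
    rw [pw_last heo B' heB, Equiv.swap_apply_of_ne_of_ne heo hej, pw_fix heo U heU,
      Equiv.swap_apply_of_ne_of_ne heo hej, pw_fix heo A heA] at hj
    exact hej hj

/-- words with `j` occurring exactly once, given label -/
noncomputable def One (T : Finset V) (o j : V) (L : Lab V) : Submodule ℚ (E V) :=
  Submodule.span ℚ {y | ∃ v : List V, St T o v ∧ lab (sw o v) = L ∧ v.count j = 1 ∧
    mon (sw o v) = y}

theorem low_one_mem {T : Finset V} {o j : V} (hjo : j ≠ o) (n : ℕ) (t : List V) (ht : St T o t)
    (hL : Low (lab (sw o t))) (hj : pw o t o = j) (hn : t.count j = n + 1) :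
    mon (sw o t) ∈ One T o j (lab (sw o t)) := by
  induction n using Nat.strong_induction_on generalizing t with
  | _ n ih =>
    rcases Nat.eq_zero_or_pos n with rfl | hn0
    · exact Submodule.subset_span ⟨t, ht, rfl, by omega, rfl⟩
    · obtain ⟨A, U, B, rfl, hU⟩ := low_split t ht.notMem ((low_iff t ht.notMem).1 hL) hj hjo
        (by omega)
      rw [St_append, St_append] at ht
      have ho : o ∉ j :: U := by
        intro h
        apply ht.1.2.notMem
        simp at h ⊢; tauto
      have h1 := rot_mem U hU ho
      have h2 : mon (sw o (A ++ (j :: U ++ [j]) ++ B)) =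
          mon (sw o A) * mon (sw o (j :: U ++ [j])) * mon (sw o B) := by
        simp only [sw_append, mon_append]
      rw [h2]
      have h3 : ∀ y ∈ Submodule.span ℚ {y | ∃ v : List V,
          lab (sw o v) = lab (sw o (j :: U ++ [j])) ∧ v.count j = 1 ∧
          (∀ i ∈ v, i ∈ j :: U) ∧ mon (sw o v) = y},
          mon (sw o A) * y * mon (sw o B) ∈ One T o j (lab (sw o (A ++ (j :: U ++ [j]) ++ B))) := by
        intro y hy
        induction hy using Submodule.span_induction with
        | mem p hp =>
          obtain ⟨v, v1, v2, v3, rfl⟩ := hp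
          have e1 : lab (sw o (A ++ v ++ B)) = lab (sw o (A ++ (j :: U ++ [j]) ++ B)) := by
            simp only [sw_append, lab_append] at v1 ⊢
            rw [v1]
          have hv : St T o v := by
            intro i hi
            have := v3 i hi
            apply ht.1.2 i
            simp at this ⊢; tauto
          have hst : St T o (A ++ v ++ B) := by
            rw [St_append, St_append]; exact ⟨⟨ht.1.1, hv⟩, ht.2⟩
          have e2 : (j :: U ++ [j]).count j = 2 := by
            have : U.count j = 0 := List.count_eq_zero.2 (List.nodup_cons.1 hU).1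
            simp [this]
          have e3 : (A ++ v ++ B).count j + 1 = n + 1 := by
            rw [← hn]
            simp only [List.count_append, v2]
            rw [List.count_append] at e2
            omega
          have e4 := ih (n - 1) (by omega) (A ++ v ++ B) hst (by rw [e1]; exact hL)
            (by unfold pw at hj ⊢; rw [e1]; exact hj) (by omega)
          rw [e1] at e4
          simpa only [sw_append, mon_append] using e4
        | zero => simp
        | add p q _ _ hp hq => rw [mul_add, add_mul]; exact Submodule.add_mem _ hp hq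
        | smul r p _ hp =>
          rw [mul_smul_comm, smul_mul_assoc]; exact Submodule.smul_mem _ _ hp
      exact h3 _ h1

end Pool.Agent.H71.FK
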