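import Pool.Agent.H71.FK.LowExc

/-! The main induction. -/

namespace Pool.Agent.H71.FK

set_option linter.unusedSectionVars false

open Equiv.Perm

variable {V : Type} [DecidableEq V] [Fintype V]

/-- the class of labels: planar or low excess -/
def Cl (m : Lab V) : Prop := Planar m ∨ Low m

theorem her_Cl (T : Finset V) : Her T (Cl : Lab V → Prop) := by
  intro a _ b _ hab l hl h
  rcases h with h | h
  · exact Or.inl (h.of_cons hab (hl.mono (Finset.subset_univ _))).1
  · exact Or.inr h.of_cons

theorem w_mem {T : Finset V} (l : List (V × V)) (hl : In T l) {i : V} (hi : i ∈ T) :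
    (lab l).w i ∈ T := by
  induction l with
  | nil => exact hi
  | cons p l ih =>
    rw [In_cons] at hl
    rw [lab_cons, Lab.mul_w, mul_apply, lt_w]
    exact swap_mem hl.1.1 hl.1.2.1 (ih hl.2)

theorem w_fix {T : Finset V} (l : List (V × V)) (hl : In T l) {i : V} (hi : i ∉ T) :
    (lab l).w i = i := by
  induction l with
  | nil => rfl
  | cons p l ih =>
    rw [In_cons] at hl
    rw [lab_cons, Lab.mul_w, mul_apply, lt_w, ih hl.2]
    refine Equiv.swap_apply_of_ne_of_ne ?_ ?_
    · rintro rfl; exact hi hl.1.1
    · rintro rfl; exact hi hl.1.2.1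

theorem star_mem_One {T : Finset V} {o j : V} (hjo : j ≠ o) (t : List V) (ht : St T o t)
    (hC : Cl (lab (sw o t))) (hj : pw o t o = j) :
    mon (sw o t) ∈ One T o j (lab (sw o t)) := by
  have hjt : j ∈ t := by
    by_contra h
    exact pw_ne hjo t h hj
  rcases hC with hC | hC
  · refine Submodule.subset_span ⟨t, ht, rfl, ?_, rfl⟩
    apply stack_count t ht.notMem hC j hjo
    rw [← hj, sameCycle_apply_right]
  · have h1 : 0 < t.count j := List.count_pos_iff.2 hjt
    exact low_one_mem hjo (t.count j - 1) t ht hC hj (by omega)

theorem One_le {T : Finset V} {o j : V} (ho : o ∈ T) {C : Lab V → Prop} (hC : Her T C) {L : Lab V}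
    (hL : C L) : One T o j L ≤ Submodule.span ℚ {p | ∃ t u, St (T.erase j) o t ∧
      St (T.erase j) o u ∧ C (lab (sw o u)) ∧ mon (sw o t) * x o j * mon (sw o u) = p} := by
  apply Submodule.span_le.2
  rintro y ⟨v, hv, hvL, hc, rfl⟩
  have hjv : j ∈ v := by rw [← List.count_pos_iff]; omega
  obtain ⟨A, B, rfl, hA⟩ := List.eq_append_cons_of_mem hjv
  have hB : j ∉ B := by
    rw [List.count_append, List.count_cons_self] at hc
    exact List.count_eq_zero.1 (by omega)
  rw [St_append, St_cons] at hv
  obtain ⟨hv1, hv2, hv3⟩ := hv
  refine Submodule.subset_span ⟨A, B, ?_, ?_, ?_, ?_⟩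
  · intro i hi
    refine ⟨Finset.mem_erase.2 ⟨?_, (hv1 i hi).1⟩, (hv1 i hi).2⟩
    rintro rfl; exact hA hi
  · intro i hi
    refine ⟨Finset.mem_erase.2 ⟨?_, (hv3 i hi).1⟩, (hv3 i hi).2⟩
    rintro rfl; exact hB hi
  · refine hC.star ho (A ++ [j]) ?_ (sw o B) (hv3.in ho) ?_
    · rw [St_append, St_cons]; exact ⟨hv1, hv2, by simp⟩
    · rw [← lab_append, ← sw_append]
      have : A ++ [j] ++ B = A ++ j :: B := by simp
      rw [this, hvL]; exact hL
  · simp only [sw_append, mon_append, sw_cons, mon_cons, mul_assoc]

/-- the main nondegeneracy statement -/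
theorem Nd_all (T : Finset V) : Nd T (Cl : Lab V → Prop) := by
  classical
  induction T using Finset.strongInduction with
  | H T ih =>
    intro P hP hK
    have hcomp : ∀ m, ∃ c : ℚ, comp m P = c • (1 : E V) := by
      intro m
      have h1 := comp_mem hP m
      have h2 : comp m P ∈ Ker T := fun a ha b hb hab => D_comp (hK a ha b hb hab) m
      generalize comp m P = P' at h1 h2
      by_cases hex : ∃ l, In T l ∧ lab l = m ∧ Cl m
      swap
      · refine ⟨0, ?_⟩
        have e : Sp T (fun m' => m' = m ∧ Cl m') = (⊥ : Submodule ℚ (E V)) := by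
          unfold Sp
          rw [Submodule.span_eq_bot]
          rintro p ⟨l, hl, ⟨h3, h4⟩, _⟩
          exact absurd ⟨l, hl, h3, h3 ▸ h4⟩ hex
        rw [e] at h1
        simpa using h1
      obtain ⟨l0, hl0, hm, hC⟩ := hex
      have h1' : P' ∈ Sp T Cl := Sp_mono (fun l _ h => h.2) h1
      have hself : comp m P' = P' := comp_self (Sp_mono (fun l _ h => h.1) h1)
      rcases l0 with _ | ⟨p0, l0⟩
      · -- constants
        have h3 : P' ∈ Submodule.span ℚ {(1 : E V)} := by
          have := Sp_le (f := LinearMap.id) (W := Submodule.span ℚ {(1 : E V)}) ?_ h1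
          · simpa using this
          intro l _ h
          have h4 : (lab l).d = 0 := by rw [h.1, ← hm]; rfl
          rw [lab_d, List.length_eq_zero_iff] at h4
          subst h4
          simp only [mon_nil, LinearMap.id_apply]
          exact Submodule.mem_span_singleton_self _
        obtain ⟨c, hc⟩ := Submodule.mem_span_singleton.1 h3
        exact ⟨c, hc.symm⟩
      · refine ⟨0, ?_⟩
        rw [zero_smul]
        have hd : m.d ≠ 0 := by rw [← hm, lab_d]; simp
        have hp0 : p0.1 ∈ T := (In_cons.1 hl0).1.1
        by_cases hw : m.w = 1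
        · -- trivial permutation
          have h3 := star_red hp0 (her_Cl T) (ih _ (Finset.erase_ssubset hp0)) h1' h2
          rw [← hself]
          generalize p0.1 = o at *
          have h4 : ∀ p ∈ KS T o, comp m p = 0 := by
            intro p hp
            induction hp using Submodule.span_induction with
            | mem p hp =>
              obtain ⟨t, ht, rfl⟩ := hp
              rw [comp_mon]
              split_ifs with h5
              · have hpw : pw o t = 1 := by unfold pw; rw [h5]; exact hw
                have hne : t ≠ [] := by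
                  rintro rfl
                  apply hd
                  rw [← h5]; rfl
                rw [← h5] at hC
                rcases hC with hC | hC
                · exact planar_one t ht.notMem hC hpw hne
                · exact (low_one t ht.notMem ((low_iff t ht.notMem).1 hC) hpw hne).mon
              · rfl
            | zero => simp
            | add p q _ _ hp hq => rw [map_add, hp, hq, add_zero]
            | smul c p _ hp => rw [map_smul, hp, smul_zero]
          exact h4 _ h3
        · -- nontrivial permutation
          obtain ⟨o, ho⟩ : ∃ o, m.w o ≠ o := by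
            by_contra h
            push Not at h
            exact hw (Equiv.ext h)
          have hoT : o ∈ T := by
            by_contra h
            apply ho
            rw [← hm]
            exact w_fix _ hl0 h
          have hjT : m.w o ∈ T := by rw [← hm]; exact w_mem _ hl0 hoT
          have h3 := star_red hoT (her_Cl T) (ih _ (Finset.erase_ssubset hoT)) h1' h2
          have h4 : ∀ p ∈ KS T o, comp m p ∈ One T o (m.w o) m := by
            intro p hp
            induction hp using Submodule.span_induction with
            | mem p hp =>
              obtain ⟨t, ht, rfl⟩ := hp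
              rw [comp_mon]
              split_ifs with h5
              · have := star_mem_One ho t ht (by rw [h5]; exact hC) (by unfold pw; rw [h5])
                rwa [h5] at this
              · exact Submodule.zero_mem _
            | zero => simp
            | add p q _ _ hp hq => rw [map_add]; exact Submodule.add_mem _ hp hq
            | smul c p _ hp => rw [map_smul]; exact Submodule.smul_mem _ _ hp
          have h5 := h4 _ h3
          rw [hself] at h5
          exact lemJ hoT (Ne.symm ho) (her_Cl T) (ih _ (Finset.erase_ssubset hjT))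
            (One_le hoT (her_Cl T) hC h5) (h2 o hoT _ hjT (Ne.symm ho))
    choose c hc using hcomp
    obtain ⟨S, hS⟩ := sum_comp P
    refine ⟨∑ m ∈ S, c m, ?_⟩
    rw [Finset.sum_smul, hS]
    apply Finset.sum_congr rfl
    intro m _
    exact hc m

theorem radical_zero (r : ℕ) (P : E V) (hP : P ∈ Sp Finset.univ (fun m => Cl m ∧ m.d < r))
    (h : ∀ Q, form P Q = 0) : P = 0 := by
  induction r generalizing P with
  | zero =>
    have e : Sp Finset.univ (fun m => Cl m ∧ m.d < 0) = (⊥ : Submodule ℚ (E V)) := by
      unfold Sp
      rw [Submodule.span_eq_bot]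
      rintro p ⟨l, _, ⟨_, h⟩, _⟩
      exact absurd h (by omega)
    rw [e] at hP
    simpa using hP
  | succ r ih =>
    have hK : P ∈ Ker Finset.univ := by
      intro a ha b hb hab
      apply ih
      · refine D_mem ha hb ?_ hP
        intro l hl ⟨h1, h2⟩
        exact ⟨her_Cl _ a ha b hb hab l hl h1, by simp only [Lab.mul_d, lt_d] at h2; omega⟩
      · intro Q
        rw [← form_right_mul_x]
        exact h _
    obtain ⟨c, hc⟩ := Nd_all Finset.univ P (Sp_mono (fun l _ h => h.1) hP) hK
    have h1 := h 1
    rw [form_one_right, hc, map_smul, map_one, smul_eq_mul, mul_one] at h1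
    rw [hc, h1, zero_smul]

end Pool.Agent.H71.FK
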