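import Pool.Agent.H71.FK.Star

/-! The rotation relation. -/

namespace Pool.Agent.H71.FK

set_option linter.unusedSectionVars false

variable {V : Type} [DecidableEq V] [Fintype V]

theorem x_pass {o a b : V} (hab : a ≠ b) (ha : a ≠ o) (hb : b ≠ o) (t : List V)
    (ht : ∀ i ∈ t, i ≠ o ∧ i ≠ a ∧ i ≠ b) :
    x a b * mon (sw o t) = mon (sw o t) * x a b := by
  induction t with
  | nil => simp
  | cons c t ih =>
    obtain ⟨h1, h2, h3⟩ := ht c (by simp)
    rw [sw_cons, mon_cons, ← mul_assoc]
    change x a b * x o c * _ = x o c * _ * _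
    rw [x_y_comm hab ha hb h1 h2 h3, mul_assoc, ih (fun i hi => ht i (by simp [hi])), mul_assoc]

theorem lt_pass {o a b : V} (ha : a ≠ o) (hb : b ≠ o) (t : List V)
    (ht : ∀ i ∈ t, i ≠ o ∧ i ≠ a ∧ i ≠ b) :
    lt a b * lab (sw o t) = lab (sw o t) * lt a b := by
  induction t with
  | nil => simp
  | cons c t ih =>
    obtain ⟨h1, h2, h3⟩ := ht c (by simp)
    rw [sw_cons, lab_cons, ← mul_assoc]
    change lt a b * lt o c * _ = lt o c * _ * _
    rw [lt_disj ha (Ne.symm h2) hb (Ne.symm h3), mul_assoc, ih (fun i hi => ht i (by simp [hi])),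
      mul_assoc]

theorem x_pass_one {o a b : V} (hab : a ≠ b) (ha : a ≠ o) (hb : b ≠ o) (t u : List V)
    (ht : ∀ i ∈ t, i ≠ o ∧ i ≠ a ∧ i ≠ b) (hu : ∀ i ∈ u, i ≠ o ∧ i ≠ a ∧ i ≠ b) :
    x a b * mon (sw o (t ++ a :: u)) =
      mon (sw o (t ++ b :: u)) * x a b + mon (sw o (t ++ a :: b :: u)) := by
  simp only [sw_append, sw_cons, mon_append, mon_cons]
  rw [← mul_assoc, x_pass hab ha hb t ht, mul_assoc, ← mul_assoc (x a b), x_y_left hab ha hb,
    add_mul, mul_add, mul_assoc (x o b), x_pass hab ha hb u hu]
  simp only [mul_assoc]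

theorem x_pass_two {o a b : V} (hab : a ≠ b) (ha : a ≠ o) (hb : b ≠ o) (t : List V)
    (ht : ∀ i ∈ t, i ≠ o ∧ i ≠ a ∧ i ≠ b) :
    x a b * mon (sw o (a :: t ++ [a])) =
      mon (sw o (b :: t ++ [b])) * x a b + (mon (sw o (a :: b :: t ++ [a])) +
        mon (sw o (b :: t ++ [a, b]))) := by
  have h := x_pass_one hab ha hb t [] ht (by simp)
  simp only [sw_append, sw_cons, mon_append, mon_cons, List.cons_append, sw_nil, mon_nil,
    mul_one] at *
  rw [← mul_assoc, x_y_left hab ha hb, add_mul, mul_assoc, h, mul_add]
  simp only [mul_assoc]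
  abel

/-- the rotation sum -/
noncomputable def R (o : V) : List V → List V → E V
  | _, [] => 0
  | p, e :: q => mon (sw o (e :: q ++ p ++ [e])) + R o (p ++ [e]) q

theorem R_step {o a b : V} (hab : a ≠ b) (ha : a ≠ o) (hb : b ≠ o) (q p : List V)
    (hp : ∀ i ∈ p, i ≠ o ∧ i ≠ a ∧ i ≠ b) (hq : ∀ i ∈ q, i ≠ o ∧ i ≠ a ∧ i ≠ b) :
    x a b * R o p (q ++ [a]) = R o p (q ++ [b]) * x a b + R o p (q ++ [a, b]) := by
  induction q generalizing p with
  | nil =>
    simp only [List.nil_append, R, add_zero]
    have := x_pass_two hab ha hb p hp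
    simpa using this
  | cons e q ih =>
    simp only [List.cons_append, R]
    have h1 : ∀ i ∈ p ++ [e], i ≠ o ∧ i ≠ a ∧ i ≠ b := by
      intro i hi
      rw [List.mem_append, List.mem_singleton] at hi
      rcases hi with hi | rfl
      · exact hp i hi
      · exact hq _ (by simp)
    have ih := ih (p ++ [e]) h1 (fun i hi => hq i (by simp [hi]))
    have h2 := x_pass_one hab ha hb (e :: q) (p ++ [e]) hq h1
    rw [mul_add, add_mul, ih]
    simp only [List.cons_append, List.append_assoc, List.nil_append] at *
    rw [h2]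
    abel

theorem R_zero {o : V} (c : List V) (hc : c.Nodup) (ho : o ∉ c) : R o [] c = 0 := by
  induction hn : c.length generalizing c with
  | zero => rw [List.length_eq_zero_iff] at hn; subst hn; rfl
  | succ n ih =>
    rcases List.eq_nil_or_concat c with rfl | ⟨c', b, rfl⟩
    · simp at hn
    rcases List.eq_nil_or_concat c' with rfl | ⟨c'', a, rfl⟩
    · simp [R, x_sq]
    · simp only [List.concat_eq_append] at *
      simp only [List.append_assoc, List.singleton_append] at *
      have e1 : (c'' ++ [a, b]).Nodup := hc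
      rw [List.nodup_append] at hc
      obtain ⟨h1, h2, h3⟩ := hc
      have hab : a ≠ b := by
        intro e; subst e; simp at h2
      have ha : a ≠ o := by rintro rfl; simp at ho
      have hb : b ≠ o := by rintro rfl; simp at ho
      have hmem : ∀ i ∈ c'', i ≠ o ∧ i ≠ a ∧ i ≠ b := by
        intro i hi
        refine ⟨?_, h3 i hi a (by simp), h3 i hi b (by simp)⟩
        rintro rfl
        exact ho (by simp [hi])
      have hs := R_step hab ha hb c'' [] (by simp) hmem
      rw [ih (c'' ++ [a]) ?_ ?_ ?_, ih (c'' ++ [b]) ?_ ?_ ?_] at hs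
      · simpa using hs.symm
      · rw [List.nodup_append]
        refine ⟨h1, by simp, ?_⟩
        intro i hi j hj
        rw [List.mem_singleton] at hj; subst hj
        exact (hmem i hi).2.2
      · simp only [List.mem_append, List.mem_singleton, not_or]
        exact ⟨fun h => ho (by simp [h]), fun h => hb h.symm⟩
      · simp at hn ⊢; omega
      · rw [List.nodup_append]
        refine ⟨h1, by simp, ?_⟩
        intro i hi j hj
        rw [List.mem_singleton] at hj; subst hj
        exact (hmem i hi).2.1
      · simp only [List.mem_append, List.mem_singleton, not_or]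
        exact ⟨fun h => ho (by simp [h]), fun h => ha h.symm⟩
      · simp at hn ⊢; omega

theorem lab_rot {o a b : V} (hab : a ≠ b) (ha : a ≠ o) (hb : b ≠ o) (t : List V)
    (ht : ∀ i ∈ t, i ≠ o ∧ i ≠ a ∧ i ≠ b) :
    lab (sw o (a :: b :: t ++ [a])) = lab (sw o (b :: t ++ [a, b])) := by
  have h := lt_pass ha hb t ht
  have e1 : lt o a * lt o b = lt o b * lt a b := by
    rw [lt_yy' hab ha hb, lt_y_left hab ha hb]
  simp only [sw_append, sw_cons, lab_append, lab_cons, List.cons_append, sw_nil, lab_nil,
    mul_one]
  rw [← mul_assoc (lt o a), e1, mul_assoc, ← mul_assoc (lt a b), h, mul_assoc (lab (sw o t)),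
    ← lt_yy' hab ha hb, e1]

/-- rotations of a closed-up word -/
theorem R_mem {o j : V} (q : List V) (p : List V) (e : V) (L : Lab V) (hn : (p ++ e :: q).Nodup)
    (ho : o ∉ p ++ e :: q) (hL : lab (sw o (e :: q ++ p ++ [e])) = L) (hj : j ∈ p) :
    R o p (e :: q) ∈ Submodule.span ℚ {y | ∃ v : List V, lab (sw o v) = L ∧ v.count j = 1 ∧
      (∀ i ∈ v, i ∈ p ++ e :: q) ∧ mon (sw o v) = y} := by
  induction q generalizing p e with
  | nil =>
    simp only [R, add_zero]
    refine Submodule.subset_span ⟨_, hL, ?_, ?_, rfl⟩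
    · have h1 : List.count j (p ++ [e]) = 1 :=
        List.count_eq_one_of_mem hn (by simp [hj])
      have h2 : j ≠ e := by
        rw [List.nodup_append] at hn
        exact hn.2.2 j hj e (by simp)
      simp only [List.nil_append, List.cons_append, List.count_cons, h1]
      simp [h2.symm]
    · intro i hi; simp at hi ⊢; tauto
  | cons e' q ih =>
    have hne : j ≠ e := by
      rw [List.nodup_append] at hn
      exact hn.2.2 j hj e (by simp)
    rw [R]
    apply Submodule.add_mem
    · refine Submodule.subset_span ⟨_, hL, ?_, ?_, rfl⟩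
      · have h1 : List.count j (p ++ e :: e' :: q) = 1 :=
          List.count_eq_one_of_mem hn (by simp [hj])
        simp only [List.count_append, List.count_cons, List.count_nil, List.cons_append,
          List.append_assoc] at h1 ⊢
        have h2 : (if (e == j) = true then 1 else 0) = 0 := by simp [hne.symm]
        rw [h2] at h1 ⊢
        omega
      · intro i hi; simp at hi ⊢; tauto
    · have hn' : ((p ++ [e]) ++ e' :: q).Nodup := by simpa using hn
      have ho' : o ∉ (p ++ [e]) ++ e' :: q := by simpa using ho
      have := ih (p ++ [e]) e' hn' ho' ?_ (by simp [hj])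
      · refine Submodule.span_mono ?_ this
        rintro y ⟨v, h1, h2, h3, rfl⟩
        refine ⟨v, h1, h2, fun i hi => ?_, rfl⟩
        have := h3 i hi
        simpa using this
      · rw [← hL]
        rw [List.nodup_append] at hn
        obtain ⟨g1, g2, g3⟩ := hn
        rw [List.nodup_cons, List.nodup_cons] at g2
        have hee : e ≠ e' := by rintro rfl; exact g2.1 (by simp)
        have heo : e ≠ o := by rintro rfl; exact ho (by simp)
        have heo' : e' ≠ o := by rintro rfl; exact ho (by simp)
        have := lab_rot hee heo heo' (q ++ p) ?_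
        · simp only [List.cons_append, List.append_assoc, List.nil_append] at this ⊢
          exact this.symm
        · intro i hi
          rw [List.mem_append] at hi
          refine ⟨?_, ?_, ?_⟩
          · rintro rfl; apply ho; simp; tauto
          · rintro rfl
            rcases hi with hi | hi
            · exact g2.1 (by simp [hi])
            · exact g3 i hi i (by simp) rfl
          · rintro rfl
            rcases hi with hi | hi
            · exact g2.2.1 hi
            · exact g3 i hi i (by simp) rfl

/-- the rotation relation, as used -/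
theorem rot_mem {o j : V} (U : List V) (hn : (j :: U).Nodup) (ho : o ∉ j :: U) :
    mon (sw o (j :: U ++ [j])) ∈ Submodule.span ℚ {y | ∃ v : List V,
      lab (sw o v) = lab (sw o (j :: U ++ [j])) ∧ v.count j = 1 ∧
      (∀ i ∈ v, i ∈ j :: U) ∧ mon (sw o v) = y} := by
  have h := R_zero (j :: U) hn ho
  rw [R] at h
  have h1 : mon (sw o (j :: U ++ [j])) = - R o [j] U := by
    rw [eq_neg_iff_add_eq_zero]
    simpa using h
  rw [h1]
  apply Submodule.neg_mem
  cases U with
  | nil => rw [R]; exact Submodule.zero_mem _
  | cons e q =>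
    refine R_mem q [j] e _ (by simpa using hn) (by simpa using ho) ?_ (by simp)
    have hje : j ≠ e := by rintro rfl; simp at hn
    have hjo : j ≠ o := by rintro rfl; simp at ho
    have heo : e ≠ o := by rintro rfl; simp at ho
    have := lab_rot hje hjo heo q ?_
    · simp only [List.cons_append, List.append_assoc, List.nil_append] at this ⊢
      exact this.symm
    · intro i hi
      rw [List.nodup_cons, List.nodup_cons] at hn
      refine ⟨?_, ?_, ?_⟩
      · rintro rfl; exact ho (by simp [hi])
      · rintro rfl; exact hn.1 (by simp [hi])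
      · rintro rfl; exact hn.2.1 hi

end Pool.Agent.H71.FK
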