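import Pool.Agent.H71.FK.Rot

/-! Star words: permutation, components, the stack argument for planar words. -/

namespace Pool.Agent.H71.FK

set_option linter.unusedSectionVars false

open Equiv.Perm

variable {V : Type} [DecidableEq V] [Fintype V]

/-- permutation of a star word -/
def pw (o : V) (t : List V) : Equiv.Perm V := (lab (sw o t)).w

@[simp] theorem pw_nil (o : V) : pw o [] = 1 := rfl
theorem pw_cons (o c : V) (t : List V) : pw o (c :: t) = Equiv.swap o c * pw o t := by
  simp [pw]
theorem pw_append (o : V) (t u : List V) : pw o (t ++ u) = pw o t * pw o u := by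
  simp [pw, sw_append, lab_append]
theorem pw_snoc (o c : V) (t : List V) : pw o (t ++ [c]) = pw o t * Equiv.swap o c := by
  rw [pw_append, pw_cons, pw_nil, mul_one]

theorem pw_fix {o i : V} (hi : i ≠ o) (t : List V) (ht : i ∉ t) : pw o t i = i := by
  induction t with
  | nil => rfl
  | cons c t ih =>
    rw [List.mem_cons, not_or] at ht
    rw [pw_cons, mul_apply, ih ht.2, Equiv.swap_apply_of_ne_of_ne hi ht.1]

theorem pw_last {o e : V} (he : e ≠ o) (t : List V) (ht : e ∉ t) : pw o (t ++ [e]) o = e := by
  rw [pw_snoc, mul_apply, Equiv.swap_apply_left, pw_fix he t ht]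

/-- components of a star word -/
theorem sw_s {o : V} (t : List V) (u v : V) :
    (lab (sw o t)).s u v ↔ u = v ∨ (u ∈ o :: t ∧ v ∈ o :: t) := by
  induction t generalizing u v with
  | nil =>
    simp only [List.mem_singleton]
    constructor
    · intro h; exact Or.inl h
    · rintro (rfl | ⟨rfl, rfl⟩)
      · exact Setoid.refl' _ _
      · exact Setoid.refl' _ _
  | cons c t ih =>
    have e : (lab (sw o (c :: t))).s = (lab (sw o t)).s ⊔ gen o c := by
      rw [sw_cons, lab_cons, Lab.mul_s, lt_s, sup_comm]
    rw [e, sup_gen_rel]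
    simp only [ih, List.mem_cons]
    constructor
    · rintro ((h | h) | ⟨h | h, h' | h'⟩ | ⟨h | h, h' | h'⟩) <;> first | tauto | (subst_vars; tauto)
    · rintro (h | ⟨h | h | h, h' | h' | h'⟩) <;> first | tauto | (subst_vars; tauto)

theorem cls_sw {o : V} (t : List V) (ht : o ∉ t) :
    cls (lab (sw o t)).s + t.toFinset.card = Fintype.card V := by
  induction t with
  | nil => simp [cls_bot]
  | cons c t ih =>
    rw [List.mem_cons, not_or] at ht
    have ih := ih ht.2
    rw [sw_cons, lab_cons]
    simp only [Lab.mul_s, lt_s, List.toFinset_cons]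
    rw [sup_comm]
    by_cases hc : c ∈ t
    · rw [sup_gen_self ((sw_s t o c).2 (by simp [hc])), Finset.insert_eq_of_mem (by simpa using hc)]
      exact ih
    · have h1 : ¬ (lab (sw o t)).s o c := by
        rw [sw_s]
        simp only [List.mem_cons, not_or, not_and]
        exact ⟨ht.1, fun _ => ⟨Ne.symm ht.1, hc⟩⟩
      have h2 := cls_join h1
      rw [Finset.card_insert_of_notMem (by simpa using hc)]
      omega

theorem St.notMem {T : Finset V} {o : V} {t : List V} (h : St T o t) : o ∉ t :=
  fun ho => (h o ho).2 rfl

theorem St_of_notMem {o : V} {t : List V} (h : o ∉ t) : St Finset.univ o t := by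
  intro i hi
  exact ⟨Finset.mem_univ _, fun e => h (e ▸ hi)⟩

/-- Fact A -/
theorem sc_new {w : Equiv.Perm V} {o c i : V} (hc : w c = c)
    (h : SameCycle (w * Equiv.swap o c) o i) : i = c ∨ SameCycle w o i := by
  rw [Equiv.mul_swap_eq_swap_mul] at h
  have h1 := orb_swap_mul_le w (w o) (w c) h
  rw [sup_gen_rel] at h1
  simp only [orb_rel, sameCycle_apply_right] at h1
  rcases h1 with h1 | ⟨_, h1⟩ | ⟨_, h1⟩
  · exact Or.inr h1
  · left
    have : SameCycle w c i := (sameCycle_apply_left).1 h1
    exact (this.eq_of_left hc).symm
  · right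
    exact (sameCycle_apply_left).1 h1

/-- Fact B -/
theorem sc_cut {w : Equiv.Perm V} {o c : V} (hoc : o ≠ c) (hc : SameCycle w o c) :
    ¬ SameCycle (w * Equiv.swap o c) o c := by
  have h1 : SameCycle w⁻¹ o c := sameCycle_inv.2 hc
  have h2 := not_both hoc h1
  intro h
  apply h2
  have : Equiv.swap o c * w⁻¹ = (w * Equiv.swap o c)⁻¹ := by
    rw [mul_inv_rev, Equiv.swap_inv]
  rw [this, sameCycle_inv]
  exact h

theorem sc_cut' {w : Equiv.Perm V} {o c i : V} (hc : SameCycle w o c)
    (h : SameCycle (w * Equiv.swap o c) o i) : SameCycle w o i := by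
  rw [Equiv.mul_swap_eq_swap_mul] at h
  have h1 := orb_swap_mul_le w (w o) (w c) h
  rw [sup_gen_rel] at h1
  simp only [orb_rel, sameCycle_apply_right, sameCycle_apply_left] at h1
  rcases h1 with h1 | ⟨_, h1⟩ | ⟨_, h1⟩
  · exact h1
  · exact hc.trans h1
  · exact h1

theorem planar_snoc {o c : V} {t : List V} (ht : o ∉ t) (hc : c ≠ o)
    (h : Planar (lab (sw o (t ++ [c])))) :
    Planar (lab (sw o t)) ∧ (c ∉ t ∨ SameCycle (pw o t) o c) := by
  rw [sw_append, lab_append, sw_cons, lab_cons, sw_nil, lab_nil, mul_one] at h
  obtain ⟨h1, h2⟩ := h.of_snoc hc.symm ((St_of_notMem ht).in (Finset.mem_univ _))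
  refine ⟨h1, ?_⟩
  rcases h2 with h2 | h2
  · left
    intro h3
    exact h2 ((sw_s t o c).2 (by simp [h3]))
  · exact Or.inr h2

/-- stack elements occur once -/
theorem stack_count {o : V} (t : List V) (ht : o ∉ t) (h : Planar (lab (sw o t))) (i : V)
    (hio : i ≠ o) (hi : SameCycle (pw o t) o i) : t.count i = 1 := by
  induction t using List.reverseRecOn with
  | nil =>
    rw [pw_nil, sameCycle_one] at hi
    exact absurd hi.symm hio
  | append_singleton t c ih =>
    simp only [List.mem_append, List.mem_singleton, not_or] at ht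
    obtain ⟨h1, h2⟩ := planar_snoc ht.1 (Ne.symm ht.2) h
    have ih := ih ht.1 h1
    rw [pw_snoc] at hi
    by_cases hct : c ∈ t
    · have h3 : SameCycle (pw o t) o c := by
        rcases h2 with h2 | h2
        · exact absurd hct h2
        · exact h2
      have h4 := ih (sc_cut' h3 hi)
      have h5 : i ≠ c := by
        rintro rfl; exact sc_cut ht.2 h3 hi
      rw [List.count_append, h4]
      simp [h5.symm]
    · rcases sc_new (pw_fix (Ne.symm ht.2) t hct) hi with rfl | h3
      · rw [List.count_append, List.count_eq_zero_of_not_mem hct]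
        simp
      · have h4 := ih h3
        have h5 : i ≠ c := by
          rintro rfl
          rw [List.count_eq_zero_of_not_mem hct] at h4
          omega
        rw [List.count_append, h4]
        simp [h5.symm]

/-- two adjacent equal letters -/
def Adj (t : List V) : Prop := ∃ A c B, t = A ++ c :: c :: B

theorem Adj.mon {o : V} {t : List V} (h : Adj t) : mon (sw o t) = 0 := by
  obtain ⟨A, c, B, rfl⟩ := h
  simp only [sw_append, sw_cons, mon_append, mon_cons]
  rw [← mul_assoc (x o c), x_sq]; simp

theorem Adj.snoc {t : List V} (h : Adj t) (c : V) : Adj (t ++ [c]) := by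
  obtain ⟨A, d, B, rfl⟩ := h
  exact ⟨A, d, B ++ [c], by simp⟩

theorem planar_inv {o : V} (t : List V) (ht : o ∉ t) (h : Planar (lab (sw o t))) :
    Adj t ∨ t.Nodup ∨ ∃ c ∈ t, ¬ SameCycle (pw o t) o c ∧ pw o t c ≠ c := by
  induction t using List.reverseRecOn with
  | nil => right; left; simp
  | append_singleton t c ih =>
    simp only [List.mem_append, List.mem_singleton, not_or] at ht
    obtain ⟨h1, h2⟩ := planar_snoc ht.1 (Ne.symm ht.2) h
    rcases ih ht.1 h1 with h3 | h3 | ⟨c', hc', h4, h5⟩
    · exact Or.inl (h3.snoc c)
    · by_cases hct : c ∈ t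
      · have h6 : SameCycle (pw o t) o c := by
          rcases h2 with h2 | h2
          · exact absurd hct h2
          · exact h2
        rcases List.eq_nil_or_concat t with rfl | ⟨t', e, rfl⟩
        · simp at hct
        rw [List.concat_eq_append] at *
        by_cases hec : e = c
        · subst hec
          left
          exact ⟨t', e, [], by simp⟩
        · right; right
          refine ⟨c, by simp, ?_, ?_⟩
          · rw [pw_snoc]; exact sc_cut ht.2 h6
          · rw [pw_snoc, mul_apply, Equiv.swap_apply_right]
            have he : e ∉ t' := by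
              rw [List.nodup_append] at h3
              intro he
              exact h3.2.2 e he e (by simp) rfl
            rw [pw_last (fun e' => ht.1 (by simp [e'])) t' he]
            exact hec
      · right; left
        rw [List.nodup_append]
        refine ⟨h3, by simp, ?_⟩
        intro i hi j hj
        rw [List.mem_singleton] at hj; subst hj
        rintro rfl; exact hct hi
    · right; right
      have hc'o : c' ≠ o := by rintro rfl; exact ht.1 hc'
      have hcc : c' ≠ c := by
        rintro rfl
        rcases h2 with h2 | h2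
        · exact h2 hc'
        · exact h4 h2
      refine ⟨c', by simp [hc'], ?_, ?_⟩
      · rw [pw_snoc]
        intro h6
        by_cases hct : c ∈ t
        · have h7 : SameCycle (pw o t) o c := by
            rcases h2 with h2 | h2
            · exact absurd hct h2
            · exact h2
          exact h4 (sc_cut' h7 h6)
        · rcases sc_new (pw_fix (Ne.symm ht.2) t hct) h6 with h7 | h7
          · exact hcc h7
          · exact h4 h7
      · rw [pw_snoc, mul_apply, Equiv.swap_apply_of_ne_of_ne hc'o hcc]
        exact h5

/-- planar, trivial permutation, nonempty: the monomial vanishes -/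
theorem planar_one {o : V} (t : List V) (ht : o ∉ t) (h : Planar (lab (sw o t)))
    (hw : pw o t = 1) (hne : t ≠ []) : mon (sw o t) = 0 := by
  rcases planar_inv t ht h with h1 | h1 | ⟨c, _, _, h3⟩
  · exact h1.mon
  · exfalso
    rcases List.eq_nil_or_concat t with rfl | ⟨t', e, rfl⟩
    · exact hne rfl
    · rw [List.concat_eq_append] at *
      have he : e ∉ t' := by
        rw [List.nodup_append] at h1
        intro he
        exact h1.2.2 e he e (by simp) rfl
      have heo : e ≠ o := fun e' => ht (by simp [e'])
      have := pw_last heo t' he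
      rw [hw] at this
      exact heo this.symm
  · rw [hw] at h3; exact absurd rfl h3

end Pool.Agent.H71.FK
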