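import Pool.Agent.H71.FK.Cycles

/-! Star words and the freeness lemma. -/

namespace Pool.Agent.H71.FK

set_option linter.unusedSectionVars false

variable {V : Type} [DecidableEq V] [Fintype V]

/-- the word of a star with centre `o` -/
def sw (o : V) (t : List V) : List (V × V) := t.map fun i => (o, i)

@[simp] theorem sw_nil (o : V) : sw o ([] : List V) = [] := rfl
@[simp] theorem sw_cons (o i : V) (t : List V) : sw o (i :: t) = (o, i) :: sw o t := rfl
theorem sw_append (o : V) (t t' : List V) : sw o (t ++ t') = sw o t ++ sw o t' := by simp [sw]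

/-- lists of leaves -/
def St (T : Finset V) (o : V) (t : List V) : Prop := ∀ i ∈ t, i ∈ T ∧ i ≠ o

@[simp] theorem St_nil (T : Finset V) (o : V) : St T o [] := by simp [St]

theorem St_cons {T : Finset V} {o i : V} {t : List V} :
    St T o (i :: t) ↔ (i ∈ T ∧ i ≠ o) ∧ St T o t := by simp [St]

theorem St_append {T : Finset V} {o : V} {t t' : List V} :
    St T o (t ++ t') ↔ St T o t ∧ St T o t' := by
  simp only [St, List.mem_append]
  constructor
  · intro h; exact ⟨fun p hp => h p (Or.inl hp), fun p hp => h p (Or.inr hp)⟩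
  · rintro ⟨h1, h2⟩ p (hp | hp)
    · exact h1 p hp
    · exact h2 p hp

theorem St.in {T : Finset V} {o : V} (ho : o ∈ T) {t : List V} (h : St T o t) : In T (sw o t) := by
  intro p hp
  simp only [sw, List.mem_map] at hp
  obtain ⟨i, hi, rfl⟩ := hp
  exact ⟨ho, (h i hi).1, (h i hi).2.symm⟩

theorem D_mon_zero {a b : V} {l : List (V × V)} (h : ∀ p ∈ l, del a b p.1 p.2 = 0) :
    D a b (mon l) = 0 := by
  induction l with
  | nil => simp
  | cons p l ih =>
    rw [mon_cons, D_mul, D_x, h p (by simp), ih (fun q hq => h q (by simp [hq]))]; simp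

theorem D_star {a b o : V} (ha : a ≠ o) (hb : b ≠ o) (t : List V) : D a b (mon (sw o t)) = 0 := by
  apply D_mon_zero
  intro p hp
  simp only [sw, List.mem_map] at hp
  obtain ⟨i, hi, rfl⟩ := hp
  rcases del_cases a b o i with h | ⟨h, _⟩ | ⟨h, _⟩
  · exact h
  · exact absurd h.symm ha
  · exact absurd h.symm hb

/-- `star * inner` words of label `m` -/
noncomputable def RS (T : Finset V) (o : V) (m : Lab V) : Submodule ℚ (E V) :=
  Submodule.span ℚ {p | ∃ t u, St T o t ∧ In (T.erase o) u ∧ lab (sw o t) * lab u = m ∧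
    mon (sw o t) * mon u = p}

theorem mem_RS {T : Finset V} {o : V} {m : Lab V} {t : List V} {u : List (V × V)}
    (ht : St T o t) (hu : In (T.erase o) u) (h : lab (sw o t) * lab u = m) :
    mon (sw o t) * mon u ∈ RS T o m := Submodule.subset_span ⟨t, u, ht, hu, h, rfl⟩

theorem RS_star {T : Finset V} {o : V} {m : Lab V} {c : V} (hc : c ∈ T) (hco : c ≠ o) {p : E V}
    (hp : p ∈ RS T o m) : x o c * p ∈ RS T o (lt o c * m) := by
  induction hp using Submodule.span_induction with
  | mem p hp =>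
    obtain ⟨t, u, ht, hu, h, rfl⟩ := hp
    rw [← mul_assoc, ← mon_cons (o, c), ← sw_cons]
    apply mem_RS _ hu
    · rw [sw_cons, lab_cons, mul_assoc, h]
    · rw [St_cons]; exact ⟨⟨hc, hco⟩, ht⟩
  | zero => simp
  | add p q _ _ hp hq => rw [mul_add]; exact Submodule.add_mem _ hp hq
  | smul r p _ hp => rw [mul_smul_comm]; exact Submodule.smul_mem _ _ hp

theorem RS_right {T : Finset V} {o : V} {m : Lab V} {u : List (V × V)} (hu : In (T.erase o) u)
    {p : E V} (hp : p ∈ RS T o m) : p * mon u ∈ RS T o (m * lab u) := by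
  induction hp using Submodule.span_induction with
  | mem p hp =>
    obtain ⟨t, u', ht, hu', h, rfl⟩ := hp
    rw [mul_assoc, ← mon_append]
    apply mem_RS ht
    · rw [In_append]; exact ⟨hu', hu⟩
    · rw [lab_append, ← mul_assoc, h]
  | zero => simp
  | add p q _ _ hp hq => rw [add_mul]; exact Submodule.add_mem _ hp hq
  | smul r p _ hp => rw [smul_mul_assoc]; exact Submodule.smul_mem _ _ hp

theorem x_y_right {o a b : V} (hab : a ≠ b) (ha : a ≠ o) (hb : b ≠ o) :
    x a b * x o b = x o a * x a b - x o b * x o a := by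
  have h := x_tri hab hb ha.symm
  rw [x_anti b o] at h
  simp only [mul_neg, neg_mul] at h
  have : x a b * x o b = x o a * x a b - x o b * x o a +
      -(-(x a b * x o b) + -(x o b * x o a) + x o a * x a b) := by abel
  rw [this, h]; simp

theorem x_y_left {o a b : V} (hab : a ≠ b) (ha : a ≠ o) (hb : b ≠ o) :
    x a b * x o a = x o b * x a b + x o a * x o b := by
  have h := x_tri hab.symm ha hb.symm
  rw [x_anti a o, x_anti b a] at h
  simp only [mul_neg, neg_mul] at h
  have : x a b * x o a = x o b * x a b + x o a * x o b +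
      (- -(x a b * x o a) + -(x o a * x o b) + -(x o b * x a b)) := by abel
  rw [this, h]; simp

theorem x_y_comm {o a b c : V} (hab : a ≠ b) (ha : a ≠ o) (hb : b ≠ o) (hc : c ≠ o) (hca : c ≠ a)
    (hcb : c ≠ b) : x a b * x o c = x o c * x a b :=
  x_comm hab ha hca.symm hb hcb.symm hc.symm

theorem lt_y_right {o a b : V} (hab : a ≠ b) (ha : a ≠ o) (hb : b ≠ o) :
    lt o a * lt a b = lt a b * lt o b := by
  rw [lt_tri ha.symm hab hb, lt_comm b o]

theorem lt_y_left {o a b : V} (hab : a ≠ b) (ha : a ≠ o) (hb : b ≠ o) :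
    lt o b * lt a b = lt a b * lt o a := by
  rw [lt_comm a b]; exact lt_y_right hab.symm hb ha

theorem lt_yy {o a b : V} (hab : a ≠ b) (ha : a ≠ o) (hb : b ≠ o) :
    lt o b * lt o a = lt a b * lt o b := by
  rw [← lt_y_right hab ha hb, lt_comm o b, ← lt_tri hab hb ha.symm, lt_comm b o, lt_y_right hab ha hb]

theorem lt_yy' {o a b : V} (hab : a ≠ b) (ha : a ≠ o) (hb : b ≠ o) :
    lt o a * lt o b = lt a b * lt o a := by
  rw [lt_comm a b]; exact lt_yy hab.symm hb ha

theorem RS_inner {T : Finset V} {o a b : V} (ha : a ∈ T) (hao : a ≠ o) (hb : b ∈ T)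
    (hbo : b ≠ o) (hab : a ≠ b) (t : List V) (ht : St T o t) :
    x a b * mon (sw o t) ∈ RS T o (lt a b * lab (sw o t)) := by
  induction t with
  | nil =>
    have := mem_RS (T := T) (o := o) (m := lt a b) (t := []) (u := [(a, b)]) (by simp) (by
      rw [In_cons]; exact ⟨⟨by simp [ha, hao], by simp [hb, hbo], hab⟩, by simp⟩) (by simp)
    simpa using this
  | cons c t ih =>
    rw [St_cons] at ht
    obtain ⟨⟨hc, hco⟩, ht⟩ := ht
    have ih := ih ht
    rw [sw_cons, mon_cons, lab_cons, ← mul_assoc, ← mul_assoc]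
    change x a b * x o c * _ ∈ RS T o (lt a b * lt o c * _)
    have hstar : ∀ c c' : V, c ∈ T → c ≠ o → c' ∈ T → c' ≠ o →
        x o c * x o c' * mon (sw o t) ∈ RS T o (lt o c * lt o c' * lab (sw o t)) := by
      intro c c' h1 h2 h3 h4
      have := mem_RS (T := T) (o := o) (m := lt o c * lt o c' * lab (sw o t)) (t := c :: c' :: t)
        (u := []) (by simp [St_cons, *]) (by simp) (by simp [mul_assoc])
      simpa [mul_assoc] using this
    by_cases hcb : c = b
    · subst hcb
      rw [x_y_right hab hao hbo, sub_mul]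
      apply Submodule.sub_mem
      · rw [← lt_y_right hab hao hbo, mul_assoc, mul_assoc]
        exact RS_star ha hao ih
      · rw [← lt_yy hab hao hbo]
        exact hstar _ _ hb hbo ha hao
    · by_cases hca : c = a
      · subst hca
        rw [x_y_left hab hao hbo, add_mul]
        apply Submodule.add_mem
        · rw [← lt_y_left hab hao hbo, mul_assoc, mul_assoc]
          exact RS_star hb hbo ih
        · rw [← lt_yy' hab hao hbo]
          exact hstar _ _ ha hao hb hbo
      · rw [x_y_comm hab hao hbo hco hca hcb,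
          lt_disj hao (Ne.symm hca) hbo (Ne.symm hcb), mul_assoc, mul_assoc]
        exact RS_star hc hco ih

theorem RS_inner' {T : Finset V} {o a b : V} (ha : a ∈ T) (hao : a ≠ o) (hb : b ∈ T)
    (hbo : b ≠ o) (hab : a ≠ b) {m : Lab V} {p : E V} (hp : p ∈ RS T o m) :
    x a b * p ∈ RS T o (lt a b * m) := by
  induction hp using Submodule.span_induction with
  | mem p hp =>
    obtain ⟨t, u, ht, hu, rfl, rfl⟩ := hp
    rw [← mul_assoc, ← mul_assoc]
    exact RS_right hu (RS_inner ha hao hb hbo hab t ht)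
  | zero => simp
  | add p q _ _ hp hq => rw [mul_add]; exact Submodule.add_mem _ hp hq
  | smul r p _ hp => rw [mul_smul_comm]; exact Submodule.smul_mem _ _ hp

/-- Lemma R -/
theorem mon_mem_RS {T : Finset V} {o : V} (l : List (V × V)) (hl : In T l) :
    mon l ∈ RS T o (lab l) := by
  induction l with
  | nil =>
    have := mem_RS (T := T) (o := o) (m := 1) (t := []) (u := []) (by simp) (by simp) (by simp)
    simpa using this
  | cons p l ih =>
    obtain ⟨a, b⟩ := p
    rw [In_cons] at hl
    obtain ⟨⟨ha, hb, hab⟩, hl⟩ := hl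
    have ih := ih hl
    rw [mon_cons, lab_cons]
    change x a b * _ ∈ RS T o (lt a b * _)
    by_cases hao : a = o
    · subst hao; exact RS_star hb (Ne.symm hab) ih
    · by_cases hbo : b = o
      · subst hbo
        rw [x_anti, neg_mul, lt_comm]
        exact Submodule.neg_mem _ (RS_star ha hab ih)
      · exact RS_inner' ha hao hb hbo hab ih

/-- common kernel of the `D a b` with `a, b ∈ U` -/
noncomputable def Ker (U : Finset V) : Submodule ℚ (E V) where
  carrier := {k | ∀ a ∈ U, ∀ b ∈ U, a ≠ b → D a b k = 0}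
  add_mem' := by
    intro p q hp hq a ha b hb hab
    rw [map_add, hp a ha b hb hab, hq a ha b hb hab, add_zero]
  zero_mem' := by intro a _ b _ _; simp
  smul_mem' := by intro r p hp a ha b hb hab; rw [map_smul, hp a ha b hb hab, smul_zero]

theorem mem_Ker {U : Finset V} {k : E V} : k ∈ Ker U ↔ ∀ a ∈ U, ∀ b ∈ U, a ≠ b → D a b k = 0 :=
  Iff.rfl

theorem act_Ker {U : Finset V} {a b : V} (ha : a ∈ U) (hb : b ∈ U) {k : E V} (hk : k ∈ Ker U) :
    act (Equiv.swap a b) k ∈ Ker U := by
  intro c hc d hd hcd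
  have := act_D (Equiv.swap a b) (Equiv.swap a b c) (Equiv.swap a b d) k
  rw [Equiv.swap_apply_self, Equiv.swap_apply_self] at this
  rw [← this, hk _ (swap_mem ha hb hc) _ (swap_mem ha hb hd) (by simpa using hcd), map_zero]

/-- hereditary classes -/
def Her (T : Finset V) (C : Lab V → Prop) : Prop :=
  ∀ a ∈ T, ∀ b ∈ T, a ≠ b → ∀ l, In T l → C (lt a b * lab l) → C (lab l)

/-- nondegeneracy on `T` for the class `C` -/
def Nd (T : Finset V) (C : Lab V → Prop) : Prop :=
  ∀ P ∈ Sp T C, P ∈ Ker T → ∃ c : ℚ, P = c • (1 : E V)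

theorem D_sum_mul {ι : Type} (S : Finset ι) (b f : ι → E V) (a c : V)
    (hb : ∀ i ∈ S, D a c (b i) = 0) :
    D a c (∑ i ∈ S, b i * f i) = ∑ i ∈ S, act (Equiv.swap a c) (b i) * D a c (f i) := by
  rw [map_sum]
  apply Finset.sum_congr rfl
  intro i hi
  rw [D_mul, hb i hi, zero_mul, zero_add]

theorem linInd_act {ι : Type} {b : ι → E V} (g : Equiv.Perm V) (hb : LinearIndependent ℚ b) :
    LinearIndependent ℚ (fun i => act g (b i)) :=
  hb.map' (act g).toLinearMap (LinearMap.ker_eq_bot.2 (act_injective g))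

/-- Lemma F (freeness) -/
theorem free {U : Finset V} {C : Lab V → Prop} (hC : Her U C) (hN : Nd U C) (r : ℕ) {ι : Type}
    (S : Finset ι) (b f : ι → E V) (hb : LinearIndependent ℚ b) (hbK : ∀ i, b i ∈ Ker U)
    (hf : ∀ i ∈ S, f i ∈ Sp U (fun m => C m ∧ m.d < r)) (h0 : ∑ i ∈ S, b i * f i = 0) :
    ∀ i ∈ S, f i = 0 := by
  induction r generalizing b f with
  | zero =>
    intro i hi
    have := hf i hi
    have e : Sp U (fun m => C m ∧ m.d < 0) = (⊥ : Submodule ℚ (E V)) := by
      unfold Sp
      rw [Submodule.span_eq_bot]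
      rintro p ⟨l, _, ⟨_, h⟩, _⟩
      exact absurd h (by omega)
    rw [e] at this
    simpa using this
  | succ r ih =>
    have hD : ∀ i ∈ S, f i ∈ Ker U := by
      intro i hi a ha c hc hac
      have h1 := D_sum_mul S b f a c (fun i _ => hbK i a ha c hc hac)
      rw [h0, map_zero] at h1
      refine ih (fun i => act (Equiv.swap a c) (b i)) (fun i => D a c (f i))
        (linInd_act _ hb) (fun i => act_Ker ha hc (hbK i)) ?_ h1.symm i hi
      intro i hi
      refine D_mem ha hc ?_ (hf i hi)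
      intro l hl ⟨h1, h2⟩
      exact ⟨hC a ha c hc hac l hl h1, by simp only [Lab.mul_d, lt_d] at h2; omega⟩
    have hc : ∀ i, ∃ c : ℚ, i ∈ S → f i = c • (1 : E V) := by
      intro i
      by_cases hi : i ∈ S
      · obtain ⟨c, hc⟩ := hN (f i) (Sp_mono (fun l _ h => h.1) (hf i hi)) (hD i hi)
        exact ⟨c, fun _ => hc⟩
      · exact ⟨0, fun h => absurd h hi⟩
    choose c hc using hc
    have h2 : ∑ i ∈ S, c i • b i = 0 := by
      rw [← h0]
      apply Finset.sum_congr rfl
      intro i hi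
      rw [hc i hi, mul_smul_comm, mul_one]
    intro i hi
    rw [hc i hi, linearIndependent_iff'.1 hb S c h2 i hi, zero_smul]

/-- monomials have bounded degree -/
theorem Sp_bdd {U : Finset V} {C : Lab V → Prop} {p : E V} (hp : p ∈ Sp U C) :
    ∃ r, p ∈ Sp U (fun m => C m ∧ m.d < r) := by
  induction hp using Submodule.span_induction with
  | mem p hp =>
    obtain ⟨l, h1, h2, rfl⟩ := hp
    exact ⟨(lab l).d + 1, mon_mem_Sp h1 ⟨h2, by omega⟩⟩
  | zero => exact ⟨0, Submodule.zero_mem _⟩
  | add p q _ _ hp hq =>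
    obtain ⟨r, hr⟩ := hp
    obtain ⟨s, hs⟩ := hq
    refine ⟨max r s, Submodule.add_mem _ (Sp_mono ?_ hr) (Sp_mono ?_ hs)⟩
    · intro l _ h; exact ⟨h.1, lt_max_of_lt_left h.2⟩
    · intro l _ h; exact ⟨h.1, lt_max_of_lt_right h.2⟩
  | smul c p _ hp => obtain ⟨r, hr⟩ := hp; exact ⟨r, Submodule.smul_mem _ _ hr⟩

/-- Lemma F without degree bound -/
theorem free' {U : Finset V} {C : Lab V → Prop} (hC : Her U C) (hN : Nd U C) {ι : Type}
    (S : Finset ι) (b f : ι → E V) (hb : LinearIndependent ℚ b) (hbK : ∀ i, b i ∈ Ker U)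
    (hf : ∀ i ∈ S, f i ∈ Sp U C) (h0 : ∑ i ∈ S, b i * f i = 0) :
    ∀ i ∈ S, f i = 0 := by
  have h1 : ∀ i, ∃ r, i ∈ S → f i ∈ Sp U (fun m => C m ∧ m.d < r) := by
    intro i
    by_cases hi : i ∈ S
    · obtain ⟨r, hr⟩ := Sp_bdd (hf i hi)
      exact ⟨r, fun _ => hr⟩
    · exact ⟨0, fun h => absurd h hi⟩
  choose r hr using h1
  refine free hC hN (S.sup r) S b f hb hbK ?_ h0
  intro i hi
  refine Sp_mono ?_ (hr i hi)
  intro l _ h
  exact ⟨h.1, lt_of_lt_of_le h.2 (Finset.le_sup hi)⟩

/-- representation by a basis -/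
theorem rep (K F : Submodule ℚ (E V)) {ι : Type} (b : Module.Basis ι ℚ K)
    (g : E V →ₗ[ℚ] E V →ₗ[ℚ] E V) {P : E V}
    (hP : P ∈ Submodule.span ℚ {p | ∃ k ∈ K, ∃ f ∈ F, g k f = p}) :
    ∃ f : ι →₀ E V, (∀ i, f i ∈ F) ∧ P = f.sum (fun i e => g (b i) e) := by
  induction hP using Submodule.span_induction with
  | mem p hp =>
    obtain ⟨k, hk, f, hf, rfl⟩ := hp
    refine ⟨(b.repr ⟨k, hk⟩).mapRange (fun c => c • f) (by simp), ?_, ?_⟩
    · intro i; simp only [Finsupp.mapRange_apply]; exact Submodule.smul_mem _ _ hf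
    · rw [Finsupp.sum_mapRange_index (by simp)]
      have h1 : (b.repr ⟨k, hk⟩).sum (fun i c => c • (b i : E V)) = k := by
        have := b.linearCombination_repr ⟨k, hk⟩
        have h2 := congrArg (Submodule.subtype K) this
        rw [Finsupp.linearCombination_apply, map_finsuppSum] at h2
        simpa using h2
      conv_lhs => rw [← h1]
      rw [map_finsuppSum, Finsupp.sum, LinearMap.sum_apply]
      apply Finset.sum_congr rfl
      intro i _
      simp only [map_smul, LinearMap.smul_apply]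
  | zero => exact ⟨0, by simp, by simp⟩
  | add p q _ _ hp hq =>
    obtain ⟨f, hf, rfl⟩ := hp
    obtain ⟨f', hf', rfl⟩ := hq
    refine ⟨f + f', fun i => by simpa using Submodule.add_mem _ (hf i) (hf' i), ?_⟩
    classical
    rw [Finsupp.sum_add_index' (by simp) (by simp)]
  | smul c p _ hp =>
    obtain ⟨f, hf, rfl⟩ := hp
    refine ⟨c • f, fun i => by simpa using Submodule.smul_mem _ c (hf i), ?_⟩
    rw [Finsupp.sum_smul_index' (by simp), Finsupp.smul_sum]
    simp only [map_smul]

/-- span of star words -/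
noncomputable def KS (T : Finset V) (o : V) : Submodule ℚ (E V) :=
  Submodule.span ℚ {p | ∃ t, St T o t ∧ mon (sw o t) = p}

theorem KS_ker {T : Finset V} {o : V} {k : E V} (hk : k ∈ KS T o) {a b : V} (ha : a ≠ o)
    (hb : b ≠ o) : D a b k = 0 := by
  induction hk using Submodule.span_induction with
  | mem p hp => obtain ⟨t, _, rfl⟩ := hp; exact D_star ha hb t
  | zero => simp
  | add p q _ _ hp hq => rw [map_add, hp, hq, add_zero]
  | smul c p _ hp => rw [map_smul, hp, smul_zero]

theorem Her.star {T : Finset V} {o : V} (ho : o ∈ T) {C : Lab V → Prop} (hC : Her T C)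
    (t : List V) (ht : St T o t) (u : List (V × V)) (hu : In T u)
    (h : C (lab (sw o t) * lab u)) : C (lab u) := by
  induction t with
  | nil => simpa using h
  | cons c t ih =>
    rw [St_cons] at ht
    apply ih ht.2
    rw [sw_cons, lab_cons, mul_assoc, ← lab_append] at h
    rw [← lab_append]
    exact hC o ho c ht.1.1 ht.1.2.symm _ (In_append.2 ⟨ht.2.in ho, hu⟩) h

theorem Her.erase {T : Finset V} {C : Lab V → Prop} (hC : Her T C) (o : V) :
    Her (T.erase o) C := by
  intro a ha b hb hab l hl h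
  exact hC a (Finset.mem_of_mem_erase ha) b (Finset.mem_of_mem_erase hb) hab l
    (hl.mono (Finset.erase_subset _ _)) h

/-- reduction to star words -/
theorem star_red {T : Finset V} {o : V} (ho : o ∈ T) {C : Lab V → Prop} (hC : Her T C)
    (hN : Nd (T.erase o) C) {P : E V} (hP : P ∈ Sp T C) (hD : P ∈ Ker T) : P ∈ KS T o := by
  have h1 : P ∈ Submodule.span ℚ {p | ∃ k ∈ KS T o, ∃ f ∈ Sp (T.erase o) C,
      LinearMap.mul ℚ (E V) k f = p} := by
    have := Sp_le (f := LinearMap.id) (W := Submodule.span ℚ {p | ∃ k ∈ KS T o,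
      ∃ f ∈ Sp (T.erase o) C, LinearMap.mul ℚ (E V) k f = p}) ?_ hP
    · simpa using this
    intro l hl hCl
    have h2 := mon_mem_RS (o := o) l hl
    refine (Submodule.span_le.2 ?_) h2
    rintro p ⟨t, u, ht, hu, e, rfl⟩
    refine Submodule.subset_span ⟨_, Submodule.subset_span ⟨t, ht, rfl⟩, _, mon_mem_Sp hu ?_, rfl⟩
    rw [← e] at hCl
    exact hC.star ho t ht u (hu.mono (Finset.erase_subset _ _)) hCl
  obtain ⟨f, hf, hPf⟩ := rep (KS T o) (Sp (T.erase o) C) (Module.Basis.ofVectorSpace ℚ (KS T o))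
    (LinearMap.mul ℚ (E V)) h1
  set b := Module.Basis.ofVectorSpace ℚ (KS T o) with hb
  have hbi : LinearIndependent ℚ (fun i => (b i : E V)) :=
    b.linearIndependent.map' (KS T o).subtype (by simp)
  have hbK : ∀ i, (b i : E V) ∈ Ker (T.erase o) := by
    intro i a ha c hc _
    exact KS_ker (b i).2 (Finset.ne_of_mem_erase ha) (Finset.ne_of_mem_erase hc)
  have hfc : ∀ i ∈ f.support, ∃ c : ℚ, f i = c • (1 : E V) := by
    intro i hi
    apply hN _ (hf i)
    intro a ha c hc hac
    have h3 : D a c P = 0 := hD a (Finset.mem_of_mem_erase ha) c (Finset.mem_of_mem_erase hc) hac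
    rw [hPf, Finsupp.sum] at h3
    simp only [LinearMap.mul_apply'] at h3
    rw [D_sum_mul _ _ _ _ _ (fun i _ => hbK i a ha c hc hac)] at h3
    refine free' (hC.erase o) hN f.support (fun i => act (Equiv.swap a c) (b i : E V))
      (fun i => D a c (f i)) (linInd_act _ hbi) (fun i => act_Ker ha hc (hbK i)) ?_ h3 i hi
    intro i _
    exact D_mem ha hc (fun l hl h => hC.erase o a ha c hc hac l hl h) (hf i)
  rw [hPf]
  apply Submodule.sum_mem
  intro i hi
  obtain ⟨c, hc⟩ := hfc i hi
  rw [hc]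
  change (b i : E V) * (c • 1) ∈ _
  rw [mul_smul_comm, mul_one]
  exact Submodule.smul_mem _ _ (b i).2

/-- Lemma J -/
theorem lemJ {T : Finset V} {o j : V} (ho : o ∈ T) (hoj : o ≠ j) {C : Lab V → Prop}
    (hC : Her T C) (hN : Nd (T.erase j) C) {P : E V}
    (hP : P ∈ Submodule.span ℚ {p | ∃ t u, St (T.erase j) o t ∧ St (T.erase j) o u ∧
      C (lab (sw o u)) ∧ mon (sw o t) * x o j * mon (sw o u) = p})
    (hD : D o j P = 0) : P = 0 := by
  set g : E V →ₗ[ℚ] E V →ₗ[ℚ] E V :=
    (LinearMap.mul ℚ (E V)).comp (LinearMap.mulRight ℚ (x o j)) with hg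
  have hgk : ∀ k f, g k f = k * x o j * f := fun k f => rfl
  have h1 : P ∈ Submodule.span ℚ {p | ∃ k ∈ KS (T.erase j) o, ∃ f ∈ Sp (T.erase j) C,
      g k f = p} := by
    refine Submodule.span_mono ?_ hP
    rintro p ⟨t, u, ht, hu, hCu, rfl⟩
    refine ⟨_, Submodule.subset_span ⟨t, ht, rfl⟩, _, mon_mem_Sp (hu.in ?_) hCu, rfl⟩
    exact Finset.mem_erase.2 ⟨hoj, ho⟩
  obtain ⟨f, hf, hPf⟩ := rep (KS (T.erase j) o) (Sp (T.erase j) C)
    (Module.Basis.ofVectorSpace ℚ (KS (T.erase j) o)) g h1
  set b := Module.Basis.ofVectorSpace ℚ (KS (T.erase j) o) with hb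
  have hbi : LinearIndependent ℚ (fun i => (b i : E V)) :=
    b.linearIndependent.map' (KS (T.erase j) o).subtype (by simp)
  -- `D o j` kills words avoiding `j`
  have hk1 : ∀ k ∈ KS (T.erase j) o, D o j k = 0 := by
    intro k hk
    induction hk using Submodule.span_induction with
    | mem p hp =>
      obtain ⟨t, ht, rfl⟩ := hp
      apply D_mon_zero
      intro p hp
      simp only [sw, List.mem_map] at hp
      obtain ⟨i, hi, rfl⟩ := hp
      have hij : i ≠ j := Finset.ne_of_mem_erase (ht i hi).1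
      rcases del_cases o j o i with h | ⟨_, h⟩ | ⟨h, _⟩
      · exact h
      · exact absurd h hij
      · exact absurd h hoj
    | zero => simp
    | add p q _ _ hp hq => rw [map_add, hp, hq, add_zero]
    | smul c p _ hp => rw [map_smul, hp, smul_zero]
  have hk2 : ∀ k ∈ Sp (T.erase j) C, D o j k = 0 := by
    intro k hk
    induction hk using Submodule.span_induction with
    | mem p hp =>
      obtain ⟨l, hl, _, rfl⟩ := hp
      apply D_mon_zero
      intro p hp
      obtain ⟨h1, h2, _⟩ := hl p hp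
      rcases del_cases o j p.1 p.2 with h | ⟨_, h⟩ | ⟨h, _⟩
      · exact h
      · exact absurd h (Finset.ne_of_mem_erase h2)
      · exact absurd h (Finset.ne_of_mem_erase h1)
    | zero => simp
    | add p q _ _ hp hq => rw [map_add, hp, hq, add_zero]
    | smul c p _ hp => rw [map_smul, hp, smul_zero]
  have hDP : D o j P = ∑ i ∈ f.support, act (Equiv.swap o j) (b i : E V) * f i := by
    rw [hPf, Finsupp.sum, map_sum]
    apply Finset.sum_congr rfl
    intro i _
    rw [hgk, mul_assoc, D_mul, hk1 _ (b i).2, zero_mul, zero_add, D_mul, hk2 _ (hf i), mul_zero,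
      add_zero, D_x]
    have : del o j o j = 1 := by simp [del, hoj]
    rw [this, one_smul, one_mul]
  rw [hD] at hDP
  have hz : ∀ i ∈ f.support, f i = 0 := by
    refine free' (hC.erase j) hN f.support (fun i => act (Equiv.swap o j) (b i : E V)) f
      (linInd_act _ hbi) ?_ (fun i _ => hf i) hDP.symm
    intro i a ha c hc hac
    have := act_D (Equiv.swap o j) (Equiv.swap o j a) (Equiv.swap o j c) (b i : E V)
    rw [Equiv.swap_apply_self, Equiv.swap_apply_self] at this
    rw [← this]
    have haj : a ≠ j := Finset.ne_of_mem_erase ha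
    have hcj : c ≠ j := Finset.ne_of_mem_erase hc
    rw [KS_ker (b i).2, map_zero]
    · intro e
      apply haj
      have := congrArg (Equiv.swap o j) e
      rwa [Equiv.swap_apply_self, Equiv.swap_apply_left] at this
    · intro e
      apply hcj
      have := congrArg (Equiv.swap o j) e
      rwa [Equiv.swap_apply_self, Equiv.swap_apply_left] at this
  rw [hPf]
  apply Finset.sum_eq_zero
  intro i hi
  change g (b i) (f i) = 0
  rw [hgk, hz i hi, mul_zero]

end Pool.Agent.H71.FK
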